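import Pool.Agent.Helper85.SC.Defs

namespace Pool.Agent.Helper85.SC

open IntermediateField Polynomial

variable {k : Type*} {K : Type*} [Field k] [Field K] [Algebra k K]

theorem mem_br {r : ℕ} {t : Fin r → K} {z : K} :
    z ∈ br k t ↔ IsAlgebraic (adjoin k (Set.range t)) z := by
  rw [br, mem_restrictScalars, mem_algebraicClosure_iff]

theorem br_le_next {r : ℕ} {E : IntermediateField k K} (t : Fin r → K) (ht : ∀ i, t i ∈ E) :
    br k t ≤ next k r E :=
  le_iSup (fun t : Fin r → E => br k (fun i => (t i : K))) (fun i => ⟨t i, ht i⟩)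

theorem subset_br {r : ℕ} (t : Fin r → K) (i : Fin r) : t i ∈ br k t := by
  rw [mem_br]
  exact isAlgebraic_algebraMap
    (⟨t i, subset_adjoin k _ (Set.mem_range_self i)⟩ : adjoin k (Set.range t))

/-- monotonicity of `br` -/
theorem br_mono {r r' : ℕ} {t : Fin r → K} {t' : Fin r' → K}
    (h : Set.range t ⊆ (adjoin k (Set.range t') : Set K)) : br k t ≤ br k t' := by
  intro z hz
  rw [mem_br] at hz ⊢
  have hle : adjoin k (Set.range t) ≤ adjoin k (Set.range t') := adjoin_le_iff.2 h
  obtain ⟨p, hp0, hp⟩ := hz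
  refine ⟨p.map (inclusion hle).toRingHom, ?_, ?_⟩
  · rwa [Polynomial.map_ne_zero_iff (inclusion hle).toRingHom.injective]
  · rw [aeval_def, eval₂_map]
    exact hp

theorem le_next {r : ℕ} (hr : 1 ≤ r) (E : IntermediateField k K) : E ≤ next k r E := by
  intro z hz
  exact br_le_next (fun _ => z) (fun _ => hz) (subset_br (fun _ => z) ⟨0, hr⟩)

theorem next_mono_left {r : ℕ} {E E' : IntermediateField k K} (h : E ≤ E') :
    next k r E ≤ next k r E' :=
  iSup_le fun t => br_le_next _ fun i => h (t i).2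

theorem next_mono_right {r r' : ℕ} (hr : 1 ≤ r) (h : r ≤ r') (E : IntermediateField k K) :
    next k r E ≤ next k r' E := by
  refine iSup_le fun t => ?_
  refine le_trans (br_mono (k := k) (t' := fun i : Fin r' =>
    if hi : (i : ℕ) < r then (t ⟨i, hi⟩ : K) else (t ⟨0, hr⟩ : K)) ?_)
    (br_le_next _ fun i => ?_)
  · rintro _ ⟨i, rfl⟩
    refine subset_adjoin k _ ⟨⟨i, lt_of_lt_of_le i.2 h⟩, ?_⟩
    simp
  · split_ifs
    · exact (t _).2
    · exact (t _).2

/-- an element algebraic over `k(t)` with `t` in `E` lies in `next k r E` -/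
theorem mem_next_of_algebraic {r : ℕ} (hr : 1 ≤ r) {E : IntermediateField k K} {t z : K}
    (ht : t ∈ E) (hz : IsAlgebraic (adjoin k {t}) z) : z ∈ next k r E := by
  refine br_le_next (fun _ => t) (fun _ => ht) ?_
  rw [mem_br]
  have : Set.range (fun _ : Fin r => t) = {t} := by
    have : Nonempty (Fin r) := ⟨⟨0, hr⟩⟩
    exact Set.range_const
  rw [this]
  exact hz

/-- a root of a nonzero polynomial over `k(t)`, `t` in `E` -/
theorem mem_next_of_root {r : ℕ} (hr : 1 ≤ r) {E : IntermediateField k K} {t z : K}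
    (ht : t ∈ E) (p : K[X]) (hp0 : p ≠ 0) (hp : ∀ i, p.coeff i ∈ adjoin k {t})
    (hz : p.eval z = 0) : z ∈ next k r E := by
  refine mem_next_of_algebraic hr ht ?_
  have hl : p ∈ Polynomial.lifts (algebraMap (adjoin k {t}) K) := by
    rw [Polynomial.lifts_iff_coeff_lifts]
    intro i
    exact ⟨⟨p.coeff i, hp i⟩, rfl⟩
  obtain ⟨q, hq⟩ := (Polynomial.mem_lifts p).1 hl
  refine ⟨q, ?_, ?_⟩
  · rintro rfl
    apply hp0
    rw [← hq, Polynomial.map_zero]
  · rw [aeval_def, eval₂_eq_eval_map, hq, hz]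

end Pool.Agent.Helper85.SC
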