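import Mathlib

/-!
Superposition complexity of a root of the general polynomial: definitions.
-/

namespace Pool.Agent.Helper85.SC

open IntermediateField

variable (k : Type*) {K : Type*} [Field k] [Field K] [Algebra k K]

/-- `[t_1, ..., t_r]`: the algebraic closure of `k(t_1, ..., t_r)` inside `K`. -/
def br {r : ℕ} (t : Fin r → K) : IntermediateField k K :=
  (algebraicClosure (adjoin k (Set.range t)) K).restrictScalars k

/-- The compositum in `K` of all the fields `[t_1, ..., t_r]` with `t_1, ..., t_r` in `E`. -/
def next (r : ℕ) (E : IntermediateField k K) : IntermediateField k K :=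
  ⨆ t : Fin r → E, br k (fun i => (t i : K))

/-- The fields `M_r^s` of the problem, `s = 1, 2, ...` (the value at `s = 0` is not used):
`M_r^1 = k(x_1, ..., x_n)` and `M_r^(s+1)` is the compositum in `K` of all the fields
`[t_1, ..., t_r]` with `t_1, ..., t_r` in `M_r^s`. -/
def M {n : ℕ} (x : Fin n → K) (r : ℕ) : ℕ → IntermediateField k K
  | 0 => adjoin k (Set.range x)
  | 1 => adjoin k (Set.range x)
  | s + 2 => next k r (M x r (s + 1))

/-- The generic situation: `F` is the ground field, `K` is algebraic over `F`, the family
`y` is algebraically independent over `k`, `F` is contained in `k(y)`, and `Gal(K/F)` acts on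
the family `y` as the full symmetric group. -/
structure Gen {k : Type*} {K : Type*} [Field k] [Field K] [Algebra k K]
    (F : IntermediateField k K) {n : ℕ} (y : Fin n → K) : Prop where
  alg : Algebra.IsAlgebraic F K
  ind : AlgebraicIndependent k y
  le : F ≤ adjoin k (Set.range y)
  lift : ∀ σ : Equiv.Perm (Fin n), ∃ g : K ≃ₐ[F] K, ∀ i, g (y i) = y (σ i)
  perm : ∀ g : K ≃ₐ[F] K, ∃ σ : Equiv.Perm (Fin n), ∀ i, g (y i) = y (σ i)

end Pool.Agent.Helper85.SC
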