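import Pool.Agent.Helper85.SC.GenLem

namespace Pool.Agent.Helper85.SC

open IntermediateField

variable {k : Type*} {K : Type*} [Field k] [Field K] [Algebra k K]

private theorem br_stable' {F : IntermediateField k K} {r : ℕ} (t : Fin r → K)
    (ht : ∀ i, t i ∈ F) (g : K ≃ₐ[F] K) {z : K} (hz : z ∈ br k t) : g z ∈ br k t := by
  rw [mem_br] at hz ⊢
  obtain ⟨p, hp0, hp⟩ := hz
  refine ⟨p, hp0, ?_⟩
  have hA : adjoin k (Set.range t) ≤ F := adjoin_le_iff.2 (by rintro _ ⟨i, rfl⟩; exact ht i)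
  have hcomp : (g : K →+* K).comp (algebraMap (adjoin k (Set.range t)) K) =
      algebraMap (adjoin k (Set.range t)) K := by
    ext a
    exact g.commutes ⟨a, hA a.2⟩
  rw [Polynomial.aeval_def] at hp ⊢
  have := Polynomial.hom_eval₂ p (algebraMap (adjoin k (Set.range t)) K) (g : K →+* K) z
  rw [hp, map_zero, hcomp] at this
  exact this.symm

theorem descent [IsAlgClosed K] [CharZero k] {F : IntermediateField k K} {n : ℕ}
    {y : Fin n → K} (hG : Gen F y) {r : ℕ} (t : Fin r → K) (ht : ∀ i, t i ∈ F)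
    (h : ∀ g : K ≃ₐ[F] K, (∀ z ∈ br k t, g z = z) → ∀ i, g (y i) = y i)
    (φ : Equiv.Perm (Fin n) → ℤ) (hφ : φ 1 ≠ 0) :
    ∃ c : K, c ≠ 0 ∧ c ∈ br k t ∧ c ∈ adjoin k (Set.range y) ∧
      ∀ (g : K ≃ₐ[F] K) (σ : Equiv.Perm (Fin n)) (ε : ℤ), (∀ i, g (y i) = y (σ i)) →
        (∀ τ, φ (σ⁻¹ * τ) = ε * φ τ) → g c = (ε : K) * c := by
  classical
  have hGA := hG.alg
  have hcK : CharZero K := charZero_of_injective_algebraMap (algebraMap k K).injective
  have hcl : IsAlgClosure F K := ⟨‹_›, hGA⟩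
  have hnor : Normal F K := IsAlgClosure.normal F K
  have hyinj : Function.Injective y := hG.ind.injective
  -- the elements `y i` are generated over `F` by a finite subset of `br k t`
  have h1 : ∀ i, y i ∈ adjoin F (br k t : Set K) := by
    intro i
    have h2 : y i ∈ F ⊔ br k t := mem_of_fixed hG.alg le_sup_left fun g hg =>
      h g (fun z hz => hg z ((le_sup_right : br k t ≤ F ⊔ br k t) hz)) i
    have h3 : F ⊔ br k t ≤ (adjoin F (br k t : Set K)).restrictScalars k := by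
      refine sup_le ?_ ?_
      · intro z hz
        exact (adjoin F (br k t : Set K)).algebraMap_mem ⟨z, hz⟩
      · intro z hz
        exact subset_adjoin F _ hz
    exact h3 h2
  choose T hT1 hT2 using fun i => exists_finset_of_mem_adjoin (h1 i)
  obtain ⟨S, hS⟩ : ∃ S : Finset K, S = Finset.univ.biUnion T := ⟨_, rfl⟩
  have hSbr : ∀ s ∈ S, s ∈ br k t := by
    intro s hs
    rw [hS, Finset.mem_biUnion] at hs
    obtain ⟨i, -, hi⟩ := hs
    exact hT1 i hi
  have hint : ∀ s : K, IsIntegral F s := fun s => (hGA.isAlgebraic s).isIntegral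
  obtain ⟨p, hp⟩ : ∃ p : Polynomial F, p = ∏ s ∈ S, minpoly F s := ⟨_, rfl⟩
  have hp0 : p ≠ 0 := by
    rw [hp]
    exact Finset.prod_ne_zero_iff.2 fun s _ => minpoly.ne_zero (hint s)
  have hΩ : ∀ w ∈ p.rootSet K, w ∈ br k t := by
    intro w hw
    have h2 := (Polynomial.mem_rootSet.1 hw).2
    rw [hp, map_prod, Finset.prod_eq_zero_iff] at h2
    obtain ⟨s, hs, h3⟩ := h2
    obtain ⟨g, hg⟩ := minpoly.exists_algEquiv_of_root' (hGA.isAlgebraic s) h3
    rw [← hg]
    exact br_stable' t ht g (hSbr s hs)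
  have hSΩ : ∀ s ∈ S, s ∈ p.rootSet K := by
    intro s hs
    rw [Polynomial.mem_rootSet]
    refine ⟨hp0, ?_⟩
    rw [hp, map_prod]
    exact Finset.prod_eq_zero hs (minpoly.aeval F s)
  obtain ⟨E, hE⟩ : ∃ E : IntermediateField F K, E = adjoin F (p.rootSet K) := ⟨_, rfl⟩
  have hsf : p.IsSplittingField F E := by
    rw [hE]
    exact adjoin_rootSet_isSplittingField (IsAlgClosed.splits _)
  have hEn : Normal F E := Normal.of_isSplittingField p
  have hEf : FiniteDimensional F E := Polynomial.IsSplittingField.finiteDimensional E p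
  have hyE : ∀ i, y i ∈ E := by
    intro i
    rw [hE]
    refine adjoin.mono F _ _ ?_ (hT2 i)
    intro s hs
    apply hSΩ
    rw [hS, Finset.mem_biUnion]
    exact ⟨i, Finset.mem_univ i, hs⟩
  have hlift : ∀ q : E ≃ₐ[F] E, ∃ g : K ≃ₐ[F] K, ∀ x : E, ((q x : E) : K) = g x := by
    intro q
    obtain ⟨g, hg⟩ := AlgEquiv.restrictNormalHom_surjective (K₁ := E) K q
    refine ⟨g, fun x => ?_⟩
    rw [← hg]
    exact AlgEquiv.restrictNormalHom_apply E g x
  have hπex : ∀ q : E ≃ₐ[F] E, ∃ σ : Equiv.Perm (Fin n), ∀ i,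
      ((q ⟨y i, hyE i⟩ : E) : K) = y (σ i) := by
    intro q
    obtain ⟨g, hg⟩ := hlift q
    obtain ⟨σ, hσ⟩ := hG.perm g
    exact ⟨σ, fun i => by rw [hg]; exact hσ i⟩
  choose π hπ using hπex
  have hπ1 : π 1 = 1 := by
    ext i
    have h2 := hπ 1 i
    have h3 : y i = y (π 1 i) := h2
    rw [← hyinj h3]
    rfl
  -- the monoid
  let Mo : Submonoid E :=
    { carrier := {b | (b : K) ∈ br k t}
      mul_mem' := fun {a b} ha hb => (br k t).mul_mem ha hb
      one_mem' := (br k t).one_mem }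
  let f : (E ≃ₐ[F] E) → (Mo →* K) := fun q =>
    { toFun := fun b => ((q b.1 : E) : K)
      map_one' := by simp
      map_mul' := fun a b => by simp }
  have hf : Function.Injective f := by
    intro q q' hqq
    have h2 : (q : E →ₐ[F] E) = (q' : E →ₐ[F] E) := by
      refine algHom_ext_of_eq_adjoin _ hE ?_
      intro x hx
      have h3 := DFunLike.congr_fun hqq ⟨⟨x, hE.ge (subset_adjoin _ _ hx)⟩, hΩ x hx⟩
      exact Subtype.ext h3
    ext x
    have h3 := DFunLike.congr_fun h2 x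
    exact congrArg Subtype.val h3
  have hli := (linearIndependent_monoidHom Mo K).comp f hf
  obtain ⟨b, hb⟩ : ∃ b : Mo, ∑ q : E ≃ₐ[F] E, (φ (π q) : K) * f q b ≠ 0 := by
    by_contra hcon
    push Not at hcon
    have h2 := Fintype.linearIndependent_iff.1 hli (fun q => (φ (π q) : K)) (by
      funext b
      rw [Finset.sum_apply]
      exact hcon b) 1
    rw [hπ1] at h2
    exact hφ (by exact_mod_cast h2)
  have hcov : ∀ (g : K ≃ₐ[F] K) (σ : Equiv.Perm (Fin n)) (ε : ℤ),
      (∀ i, g (y i) = y (σ i)) → (∀ τ, φ (σ⁻¹ * τ) = ε * φ τ) →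
        g (∑ q : E ≃ₐ[F] E, (φ (π q) : K) * f q b) =
          (ε : K) * ∑ q : E ≃ₐ[F] E, (φ (π q) : K) * f q b := by
    intro g σ ε hσ hε
    obtain ⟨q₀, hq₀⟩ : ∃ q₀ : E ≃ₐ[F] E, q₀ = AlgEquiv.restrictNormal g E := ⟨_, rfl⟩
    have hg : ∀ x : E, g (x : K) = ((q₀ x : E) : K) := fun x => by
      rw [hq₀]
      exact (AlgEquiv.restrictNormal_apply E g x).symm
    have hπq : ∀ q, π (q₀ * q) = σ * π q := by
      intro q
      ext i
      have h2 := hπ (q₀ * q) i
      have h3 : (((q₀ * q) ⟨y i, hyE i⟩ : E) : K) = g (y (π q i)) := by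
        rw [← hπ q i, hg]
        rfl
      rw [h3, hσ] at h2
      rw [← hyinj h2]
      rfl
    have hφq : ∀ q, (φ (π q) : K) = (ε : K) * (φ (π (q₀ * q)) : K) := by
      intro q
      have h2 := hε (π (q₀ * q))
      rw [hπq, inv_mul_cancel_left] at h2
      rw [hπq]
      exact_mod_cast h2
    rw [map_sum, Finset.mul_sum, ← Equiv.sum_comp (Equiv.mulLeft q₀)
      (fun q => (ε : K) * ((φ (π q) : K) * f q b))]
    refine Finset.sum_congr rfl fun q _ => ?_
    rw [map_mul, map_intCast, hφq q]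
    have h2 : g (f q b) = f (q₀ * q) b := by
      change g ((q b.1 : E) : K) = (((q₀ * q) b.1 : E) : K)
      rw [hg]
      rfl
    rw [h2, mul_assoc]
    rfl
  refine ⟨_, hb, ?_, ?_, hcov⟩
  · refine sum_mem fun q _ => mul_mem (intCast_mem _ _) ?_
    obtain ⟨g, hg⟩ := hlift q
    change ((q b.1 : E) : K) ∈ br k t
    rw [hg]
    exact br_stable' t ht g b.2
  · refine mem_of_fixed hG.alg hG.le fun g hg => ?_
    have h2 := hcov g 1 1 (fun i => hg _ (subset_adjoin k _ ⟨i, rfl⟩)) (fun τ => by simp)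
    rw [h2]
    simp

end Pool.Agent.Helper85.SC
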