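import Pool.Agent.Helper85.SC.Base

namespace Pool.Agent.Helper85.SC

open IntermediateField

variable {k : Type*} {K : Type*} [Field k] [Field K] [Algebra k K]

section
open scoped IntermediateField.algebraAdjoinAdjoin

theorem isAlg_adjoin (S : Set K) (h : Algebra.IsAlgebraic (adjoin k S) K) :
    Algebra.IsAlgebraic (Algebra.adjoin k S) K :=
  (IsFractionRing.comap_isAlgebraic_iff (A := Algebra.adjoin k S) (K := adjoin k S)
    (C := K)).mpr h

end

theorem isAlg_mono {E E' : IntermediateField k K} (h : E ≤ E') (hE : Algebra.IsAlgebraic E K) :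
    Algebra.IsAlgebraic E' K := by
  constructor
  intro z
  obtain ⟨p, hp0, hp⟩ := hE.isAlgebraic z
  refine ⟨p.map (inclusion h).toRingHom, ?_, ?_⟩
  · rwa [Polynomial.map_ne_zero_iff (inclusion h).toRingHom.injective]
  · rw [Polynomial.aeval_def, Polynomial.eval₂_map]
    exact hp

/-- a generating family of the right size is algebraically independent -/
theorem ind_of_le {n : ℕ} {x y : Fin n → K} (hx : AlgebraicIndependent k x)
    (halg : Algebra.IsAlgebraic (adjoin k (Set.range x)) K)
    (h : adjoin k (Set.range x) ≤ adjoin k (Set.range y)) : AlgebraicIndependent k y := by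
  have hxb : IsTranscendenceBasis k x := by
    have := isAlg_adjoin _ halg
    exact (hx.isTranscendenceBasis_iff_isAlgebraic).2 this
  have h1 := isAlg_adjoin _ (isAlg_mono h halg)
  refine (Algebra.IsAlgebraic.isTranscendenceBasis_of_lift_le_trdeg_of_finite k y ?_).1
  rw [← hxb.lift_cardinalMk_eq_trdeg]

/-- `Gal(K/F)` -descent: an element fixed by all automorphisms of `K` over `F` which fix
the field `E` pointwise lies in `E`. -/
theorem mem_of_fixed [IsAlgClosed K] [CharZero k] {F : IntermediateField k K}
    (hF : Algebra.IsAlgebraic F K) {E : IntermediateField k K} (hE : F ≤ E) {z : K}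
    (h : ∀ g : K ≃ₐ[F] K, (∀ w ∈ E, g w = w) → g z = z) : z ∈ E := by
  have : CharZero F := charZero_of_injective_algebraMap (algebraMap k F).injective
  have : IsAlgClosure F K := ⟨‹_›, hF⟩
  have : IsGalois F K := {}
  have h1 := InfiniteGalois.fixedField_fixingSubgroup (extendScalars hE)
  rw [← mem_extendScalars hE, ← h1, mem_fixedField_iff]
  intro g hg
  refine h g fun w hw => ?_
  exact (IntermediateField.mem_fixingSubgroup_iff _ _).1 hg w hw

/-- The same for `F` itself. -/
theorem mem_base_of_fixed [IsAlgClosed K] [CharZero k] {F : IntermediateField k K}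
    (hF : Algebra.IsAlgebraic F K) {z : K} (h : ∀ g : K ≃ₐ[F] K, g z = z) : z ∈ F :=
  mem_of_fixed hF le_rfl fun g _ => h g

/-- permutations of an independent generating family extend to automorphisms of `K` -/
theorem exists_lift [IsAlgClosed K] {F : IntermediateField k K} {n : ℕ} {y : Fin n → K}
    (hy : AlgebraicIndependent k y) (halg : Algebra.IsAlgebraic (adjoin k (Set.range y)) K)
    (σ : Equiv.Perm (Fin n))
    (hσ : ∀ g : K ≃ₐ[k] K, (∀ i, g (y i) = y (σ i)) → ∀ z ∈ F, g z = z) :
    ∃ g : K ≃ₐ[F] K, ∀ i, g (y i) = y (σ i) := by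
  let L := adjoin k (Set.range y)
  have hyσ : AlgebraicIndependent k (y ∘ σ) := hy.comp σ σ.injective
  have hr : adjoin k (Set.range (y ∘ σ)) = L := by rw [σ.surjective.range_comp]
  let e : L ≃ₐ[k] L :=
    (hy.aevalEquivField.symm.trans hyσ.aevalEquivField).trans (equivOfEq hr)
  have hcl : IsAlgClosure L K := ⟨‹_›, halg⟩
  let g₀ : K ≃+* K := IsAlgClosure.equivOfEquiv K K (R := L) (S := L) (e : L ≃+* L)
  have hg₀ : ∀ z : L, g₀ (z : K) = ((e z : L) : K) := fun z =>
    IsAlgClosure.equivOfEquiv_algebraMap K K (e : L ≃+* L) z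
  have hL : ∀ i, y i ∈ L := fun i => subset_adjoin k _ ⟨i, rfl⟩
  have he : ∀ i, ((e ⟨y i, hL i⟩ : L) : K) = y (σ i) := by
    intro i
    have h1 : hy.aevalEquivField.symm ⟨y i, hL i⟩ =
        algebraMap (MvPolynomial (Fin n) k) (FractionRing (MvPolynomial (Fin n) k))
          (MvPolynomial.X i) := by
      rw [AlgEquiv.symm_apply_eq]
      apply Subtype.ext
      rw [hy.aevalEquivField_algebraMap_apply_coe, MvPolynomial.aeval_X]
    change ((equivOfEq hr (hyσ.aevalEquivField (hy.aevalEquivField.symm ⟨y i, hL i⟩)) : L) : K)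
      = _
    rw [h1]
    change ((hyσ.aevalEquivField _ : adjoin k (Set.range (y ∘ σ))) : K) = _
    rw [hyσ.aevalEquivField_algebraMap_apply_coe, MvPolynomial.aeval_X]
    rfl
  have hk : ∀ a : k, g₀ (algebraMap k K a) = algebraMap k K a := by
    intro a
    have := hg₀ (algebraMap k L a)
    rw [AlgEquiv.commutes] at this
    exact this
  let g₁ : K ≃ₐ[k] K := AlgEquiv.ofRingEquiv (f := g₀) hk
  have hg₁ : ∀ i, g₁ (y i) = y (σ i) := by
    intro i
    have := hg₀ ⟨y i, hL i⟩
    rw [he] at this
    exact this
  refine ⟨AlgEquiv.ofRingEquiv (f := g₀) fun z => hσ g₁ hg₁ z z.2, fun i => hg₁ i⟩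

/-- The general polynomial: its roots are in generic situation. -/
theorem exists_gen [IsAlgClosed K] {n : ℕ} {x : Fin n → K}
    (hx : AlgebraicIndependent k x)
    (halg : Algebra.IsAlgebraic (adjoin k (Set.range x)) K) {f : K}
    (hf : f ^ n + ∑ i : Fin n, x i * f ^ (n - 1 - (i : ℕ)) = 0) :
    ∃ y : Fin n → K, Gen (adjoin k (Set.range x)) y ∧ ∃ i₀, y i₀ = f := by
  classical
  have hn : n ≠ 0 := by
    rintro rfl
    simp at hf
  let q : Polynomial K := ∑ i : Fin n, Polynomial.C (x i) * Polynomial.X ^ (n - 1 - (i : ℕ))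
  let p : Polynomial K := Polynomial.X ^ n + q
  have hq : q.degree < (n : ℕ) := by
    refine lt_of_le_of_lt (Polynomial.degree_sum_le _ _) ?_
    rw [Finset.sup_lt_iff (by exact WithBot.bot_lt_coe n)]
    intro i _
    refine lt_of_le_of_lt (Polynomial.degree_C_mul_X_pow_le _ _) ?_
    have := i.2
    exact_mod_cast (by omega : n - 1 - (i : ℕ) < n)
  have hpm : p.Monic := Polynomial.monic_X_pow_add hq
  have hpn : p.natDegree = n := by
    rw [Polynomial.natDegree_eq_of_degree_eq_some]
    rw [Polynomial.degree_add_eq_left_of_degree_lt] <;> rw [Polynomial.degree_X_pow]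
    exact hq
  have hev : ∀ z, p.eval z = z ^ n + ∑ i : Fin n, x i * z ^ (n - 1 - (i : ℕ)) := by
    intro z
    simp [p, q, Polynomial.eval_finsetSum]
  have hsp : p.Splits := IsAlgClosed.splits p
  have hcard : p.roots.card = n := by
    rw [← hpn]
    exact hsp.natDegree_eq_card_roots.symm
  let l := p.roots.toList
  have hl : l.length = n := by simp [l, hcard]
  let y : Fin n → K := fun i => l.get (i.cast hl.symm)
  have hprod : p = ∏ i : Fin n, (Polynomial.X - Polynomial.C (y i)) := by
    have h1 := hsp.eq_prod_roots_of_monic hpm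
    have h2 : p.roots = Multiset.map y Finset.univ.val := by
      have : (Finset.univ : Finset (Fin n)).val = (List.finRange n : Multiset (Fin n)) := rfl
      rw [this, Multiset.map_coe, ← Multiset.coe_toList p.roots]
      congr 1
      symm
      apply List.ext_get
      · simp [hcard]
      · intro a h1 h2
        simp [y, l]
    rw [h1, h2, Multiset.map_map]
    rfl
  have hx_y : ∀ i, x i ∈ adjoin k (Set.range y) := by
    have hlift : p ∈ Polynomial.lifts (algebraMap (adjoin k (Set.range y)) K) := by
      rw [hprod]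
      refine Subsemiring.prod_mem _ fun i _ => ?_
      refine (Polynomial.mem_lifts _).2 ⟨Polynomial.X - Polynomial.C
        ⟨y i, subset_adjoin k _ ⟨i, rfl⟩⟩, ?_⟩
      simp
    rw [Polynomial.lifts_iff_coeff_lifts] at hlift
    intro i
    obtain ⟨z, hz⟩ := hlift (n - 1 - (i : ℕ))
    have h3 : p.coeff (n - 1 - (i : ℕ)) = x i := by
      have hi := i.2
      simp only [p, q, Polynomial.coeff_add, Polynomial.coeff_X_pow, Polynomial.finsetSum_coeff,
        Polynomial.coeff_C_mul]
      rw [if_neg (by omega), zero_add, Finset.sum_eq_single i]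
      · simp
      · intro b _ hb
        have hb2 := b.2
        have : ¬ (n - 1 - (i : ℕ) = n - 1 - (b : ℕ)) := by
          intro h
          apply hb
          apply Fin.ext
          omega
        rw [if_neg this, mul_zero]
      · simp
    rw [← h3, ← hz]
    exact z.2
  have hle : adjoin k (Set.range x) ≤ adjoin k (Set.range y) := by
    rw [adjoin_le_iff]
    rintro _ ⟨i, rfl⟩
    exact hx_y i
  have hy : AlgebraicIndependent k y := ind_of_le hx halg hle
  have hroot : ∀ z, p.eval z = 0 ↔ ∃ i, y i = z := by
    intro z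
    rw [hprod, Polynomial.eval_prod, Finset.prod_eq_zero_iff]
    constructor
    · rintro ⟨i, _, hi⟩
      rw [Polynomial.eval_sub, Polynomial.eval_X, Polynomial.eval_C, sub_eq_zero] at hi
      exact ⟨i, hi.symm⟩
    · rintro ⟨i, rfl⟩
      exact ⟨i, Finset.mem_univ _, by simp⟩
  refine ⟨y, ⟨halg, hy, hle, ?_, ?_⟩, ?_⟩
  · intro σ
    refine exists_lift hy (isAlg_mono hle halg) σ fun g hg z hz => ?_
    have h5 : p.map (g : K →+* K) = p := by
      conv_lhs => rw [hprod]
      rw [Polynomial.map_prod, hprod]
      simp only [Polynomial.map_sub, Polynomial.map_X, Polynomial.map_C]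
      have : ∀ i, (g : K →+* K) (y i) = y (σ i) := hg
      simp only [this]
      exact Equiv.prod_comp σ fun i => Polynomial.X - Polynomial.C (y i)
    have h6 : ∀ i, g (x i) = x i := by
      intro i
      have h3 : p.coeff (n - 1 - (i : ℕ)) = x i := by
        have hi := i.2
        simp only [p, q, Polynomial.coeff_add, Polynomial.coeff_X_pow,
          Polynomial.finsetSum_coeff, Polynomial.coeff_C_mul]
        rw [if_neg (by omega), zero_add, Finset.sum_eq_single i]
        · simp
        · intro b _ hb
          have hb2 := b.2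
          have : ¬ (n - 1 - (i : ℕ) = n - 1 - (b : ℕ)) := by
            intro h
            apply hb
            apply Fin.ext
            omega
          rw [if_neg this, mul_zero]
        · simp
      have h7 : (p.map (g : K →+* K)).coeff (n - 1 - (i : ℕ)) = g (x i) := by
        rw [Polynomial.coeff_map, h3]
        rfl
      rw [← h7, h5, h3]
    induction hz using adjoin_induction with
    | mem z hz =>
      obtain ⟨i, rfl⟩ := hz
      exact h6 i
    | algebraMap a => exact g.commutes a
    | add a b _ _ ha hb => rw [map_add, ha, hb]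
    | inv a _ ha => rw [map_inv₀, ha]
    | mul a b _ _ ha hb => rw [map_mul, ha, hb]
  · intro g
    have h1 : ∀ i, ∃ j, y j = g (y i) := by
      intro i
      rw [← hroot, hev]
      have h2 : p.eval (y i) = 0 := (hroot _).2 ⟨i, rfl⟩
      rw [hev] at h2
      have h3 := congrArg g h2
      rw [map_add, map_pow, map_sum, map_zero] at h3
      rw [← h3]
      congr 1
      refine Finset.sum_congr rfl fun j _ => ?_
      rw [map_mul, map_pow]
      congr 1
      exact (g.commutes ⟨x j, subset_adjoin k _ ⟨j, rfl⟩⟩).symm
    choose s hs using h1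
    have hinj : Function.Injective s := by
      intro a b hab
      have : g (y a) = g (y b) := by rw [← hs, ← hs, hab]
      exact hy.injective (g.injective this)
    refine ⟨Equiv.ofBijective s (Finite.injective_iff_bijective.1 hinj), fun i => (hs i).symm⟩
  · rw [← hroot, hev]
    exact hf

end Pool.Agent.Helper85.SC
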