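import Mathlib

namespace Pool.Agent.Helper85.SC

open Equiv

theorem alternating_le {n : ℕ} (hn : 5 ≤ n) (N : Subgroup (Perm (Fin n))) (hN : N.Normal)
    (h : N ≠ ⊥) : alternatingGroup (Fin n) ≤ N := by
  have hc : 5 ≤ Nat.card (Fin n) := by simpa using hn
  haveI := hN
  exact Equiv.Perm.alternatingGroup_le_of_normal hc ((Subgroup.nontrivial_iff_ne_bot N).mpr h)

theorem exists_common {G : Type*} [Group G] {n : ℕ} (hn : 5 ≤ n) (π : G →* Perm (Fin n))
    (hπ : Function.Surjective π) {ι : Type*} (T : Finset ι) (N : ι → Subgroup G)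
    (hN : ∀ i ∈ T, (N i).Normal) (h : ∀ i ∈ T, ∃ g ∈ N i, π g ≠ 1) :
    ∃ g, (∀ i ∈ T, g ∈ N i) ∧ π g ≠ 1 := by
  classical
  have hc : 5 ≤ Nat.card (Fin n) := by simpa using hn
  -- key claim
  have key : ∀ S : Finset ι, S ⊆ T →
      ∃ M : Subgroup G, M.Normal ∧ (∀ i ∈ S, M ≤ N i) ∧ alternatingGroup (Fin n) ≤ M.map π := by
    intro S
    induction S using Finset.induction_on with
    | empty =>
      intro _
      refine ⟨⊤, inferInstance, by simp, ?_⟩
      rw [← MonoidHom.range_eq_map, MonoidHom.range_eq_top.mpr hπ]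
      exact le_top
    | insert a S ha ih =>
      intro hS
      obtain ⟨M, hM, hMS, hA⟩ := ih (fun i hi => hS (Finset.mem_insert_of_mem hi))
      have haT : a ∈ T := hS (Finset.mem_insert_self a S)
      haveI := hM
      haveI hNa := hN a haT
      have hNaA : alternatingGroup (Fin n) ≤ (N a).map π := by
        apply alternating_le hn
        · exact Subgroup.Normal.map hNa π hπ
        · intro hbot
          obtain ⟨g, hg, hg1⟩ := h a haT
          apply hg1
          have : π g ∈ (N a).map π := Subgroup.mem_map_of_mem π hg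
          rw [hbot] at this
          simpa using this
      refine ⟨⁅M, N a⁆, inferInstance, ?_, ?_⟩
      · intro i hi
        rcases Finset.mem_insert.mp hi with rfl | hi
        · exact Subgroup.commutator_le_right M (N i)
        · exact (Subgroup.commutator_le_left M (N a)).trans (hMS i hi)
      · rw [Subgroup.map_commutator, ← commutator_alternatingGroup_eq_self hc]
        exact Subgroup.commutator_mono hA hNaA
  obtain ⟨M, _, hMT, hA⟩ := key T (Finset.Subset.refl T)
  -- an element of the alternating group which is not one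
  have hnt : Nontrivial (alternatingGroup (Fin n)) := by
    apply alternatingGroup.nontrivial_of_three_le_card
    simp; omega
  obtain ⟨x, hx⟩ := exists_ne (1 : alternatingGroup (Fin n))
  obtain ⟨g, hg, hgx⟩ := hA x.2
  refine ⟨g, fun i hi => hMT i hi hg, ?_⟩
  rw [hgx]
  intro h1
  exact hx (Subtype.ext h1)

end Pool.Agent.Helper85.SC
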