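import Pool.Agent.Helper85.SC.Defs

namespace Pool.Agent.Helper85.SC

open IntermediateField

namespace KleinAux

/-- the rotation `i ↦ i + 1` -/
def ra : Equiv.Perm (Fin 5) := finRotate 5
/-- the reflection `i ↦ -i` -/
def rb : Equiv.Perm (Fin 5) := Equiv.swap 1 4 * Equiv.swap 2 3
/-- Klein's third generator -/
def rt : Equiv.Perm (Fin 5) := Equiv.swap 1 2 * Equiv.swap 3 4

theorem gen_aux : ∀ σ : Equiv.Perm (Fin 5), Equiv.Perm.sign σ = 1 →
    (∃ i : Fin 5, ∃ e : Fin 2, σ = ra ^ (i : ℕ) * rb ^ (e : ℕ)) ∨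
    (∃ i : Fin 5, ∃ e : Fin 2, ∃ j : Fin 5,
      σ = ra ^ (i : ℕ) * rb ^ (e : ℕ) * rt * ra ^ (j : ℕ)) := by
  decide +kernel

theorem ra_mem : ra ∈ alternatingGroup (Fin 5) := by
  rw [Equiv.Perm.mem_alternatingGroup]; decide +kernel
theorem rb_mem : rb ∈ alternatingGroup (Fin 5) := by
  rw [Equiv.Perm.mem_alternatingGroup]; decide +kernel
theorem rt_mem : rt ∈ alternatingGroup (Fin 5) := by
  rw [Equiv.Perm.mem_alternatingGroup]; decide +kernel

theorem ra_val : ra 0 = 1 ∧ ra 1 = 2 ∧ ra 2 = 3 ∧ ra 3 = 4 ∧ ra 4 = 0 := by decide +kernel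
theorem rb_val : rb 0 = 0 ∧ rb 1 = 4 ∧ rb 2 = 3 ∧ rb 3 = 2 ∧ rb 4 = 1 := by decide +kernel
theorem rt_val : rt 0 = 0 ∧ rt 1 = 2 ∧ rt 2 = 1 ∧ rt 3 = 4 ∧ rt 4 = 3 := by decide +kernel

section
variable {k K : Type*} [Field k] [Field K] [Algebra k K]

theorem agree {S : Set K} {g g' : K ≃ₐ[k] K} (h : ∀ x ∈ S, g x = g' x) {x : K}
    (hx : x ∈ adjoin k S) : g x = g' x := by
  induction hx using IntermediateField.adjoin_induction with
  | mem x hx => exact h x hx
  | algebraMap x => rw [AlgEquiv.commutes, AlgEquiv.commutes]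
  | add x y _ _ hx hy => rw [map_add, map_add, hx, hy]
  | inv x _ hx => rw [map_inv₀, map_inv₀, hx]
  | mul x y _ _ hx hy => rw [map_mul, map_mul, hx, hy]

theorem stab {u : K} {g : K ≃ₐ[k] K} (h : g u ∈ adjoin k {u}) {x : K}
    (hx : x ∈ adjoin k {u}) : g x ∈ adjoin k {u} := by
  induction hx using IntermediateField.adjoin_induction with
  | mem x hx => rw [Set.mem_singleton_iff.1 hx]; exact h
  | algebraMap x => rw [AlgEquiv.commutes]; exact IntermediateField.algebraMap_mem _ _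
  | add x y _ _ hx hy => rw [map_add]; exact add_mem hx hy
  | inv x _ hx => rw [map_inv₀]; exact inv_mem hx
  | mul x y _ _ hx hy => rw [map_mul]; exact mul_mem hx hy

/-- the property to be proved for all even permutations -/
def Good (k : Type*) {K : Type*} [Field k] [Field K] [Algebra k K] (v : Fin 5 → K) (u : K)
    (σ : Equiv.Perm (Fin 5)) : Prop :=
  ∀ g : K ≃ₐ[k] K, (∀ i, g (v i) = v (σ i)) → g u ∈ adjoin k {u}

/-- the submonoid of good even permutations -/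
def goodSub (v : Fin 5 → K) (u : K) (hu : u ∈ adjoin k (Set.range v))
    (hA : ∀ σ ∈ alternatingGroup (Fin 5), ∃ g : K ≃ₐ[k] K, ∀ i, g (v i) = v (σ i)) :
    Submonoid (Equiv.Perm (Fin 5)) where
  carrier := {σ | σ ∈ alternatingGroup (Fin 5) ∧ Good k v u σ}
  one_mem' := by
    refine ⟨one_mem _, fun g hg => ?_⟩
    have : g u = (1 : K ≃ₐ[k] K) u := by
      refine agree (S := Set.range v) ?_ hu
      rintro _ ⟨i, rfl⟩
      rw [hg i]; rfl
    rw [this]
    exact mem_adjoin_simple_self k u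
  mul_mem' := by
    rintro σ τ ⟨hσ, hσ'⟩ ⟨hτ, hτ'⟩
    refine ⟨mul_mem hσ hτ, fun g hg => ?_⟩
    obtain ⟨g1, hg1⟩ := hA σ hσ
    obtain ⟨g2, hg2⟩ := hA τ hτ
    have : g u = (g1 * g2) u := by
      refine agree (S := Set.range v) ?_ hu
      rintro _ ⟨i, rfl⟩
      rw [hg i, AlgEquiv.mul_apply, hg2, hg1]; rfl
    rw [this, AlgEquiv.mul_apply]
    exact stab (hσ' g1 hg1) (hτ' g2 hg2)

theorem good_of_gens (v : Fin 5 → K) (u : K) (hu : u ∈ adjoin k (Set.range v))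
    (hA : ∀ σ ∈ alternatingGroup (Fin 5), ∃ g : K ≃ₐ[k] K, ∀ i, g (v i) = v (σ i))
    (ha : Good k v u ra) (hb : Good k v u rb) (ht : Good k v u rt)
    (σ : Equiv.Perm (Fin 5)) (hσ : σ ∈ alternatingGroup (Fin 5)) : Good k v u σ := by
  have ha' : ra ∈ goodSub v u hu hA := ⟨ra_mem, ha⟩
  have hb' : rb ∈ goodSub v u hu hA := ⟨rb_mem, hb⟩
  have ht' : rt ∈ goodSub v u hu hA := ⟨rt_mem, ht⟩
  have hs : σ ∈ goodSub v u hu hA := by
    rcases gen_aux σ (Equiv.Perm.mem_alternatingGroup.1 hσ) with ⟨i, e, rfl⟩ | ⟨i, e, j, rfl⟩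
    · exact mul_mem (pow_mem ha' _) (pow_mem hb' _)
    · exact mul_mem (mul_mem (mul_mem (pow_mem ha' _) (pow_mem hb' _)) ht') (pow_mem ha' _)
  exact hs.2

end

/-- no proper linear relation -/
theorem no_rel {k K : Type*} [Field k] [Field K] [Algebra k K]
    (v : Fin 5 → K) (hv : ∀ i j, v i = v j → i = j)
    (hA : ∀ σ ∈ alternatingGroup (Fin 5), ∃ g : K ≃ₐ[k] K, ∀ i, g (v i) = v (σ i))
    (l : Fin 5 → k)
    (hl : l 0 ^ 2 + l 1 ^ 2 + l 2 ^ 2 - l 0 * l 1 - l 1 * l 2 - l 2 * l 0 ≠ 0) :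
    ∑ i, algebraMap k K (l i) * v i ≠ 0 := by
  intro h0
  have hc1 : (Equiv.swap 0 1 * Equiv.swap 1 2 : Equiv.Perm (Fin 5)) ∈
      alternatingGroup (Fin 5) := by
    rw [Equiv.Perm.mem_alternatingGroup]; decide +kernel
  have hc2 : (Equiv.swap 1 2 * Equiv.swap 0 1 : Equiv.Perm (Fin 5)) ∈
      alternatingGroup (Fin 5) := by
    rw [Equiv.Perm.mem_alternatingGroup]; decide +kernel
  have hv1 : ∀ i : Fin 5, (Equiv.swap 0 1 * Equiv.swap 1 2 : Equiv.Perm (Fin 5)) i =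
      ![1, 2, 0, 3, 4] i := by decide +kernel
  have hv2 : ∀ i : Fin 5, (Equiv.swap 1 2 * Equiv.swap 0 1 : Equiv.Perm (Fin 5)) i =
      ![2, 0, 1, 3, 4] i := by decide +kernel
  obtain ⟨g1, hg1⟩ := hA _ hc1
  obtain ⟨g2, hg2⟩ := hA _ hc2
  have e1 := congrArg g1 h0
  have e2 := congrArg g2 h0
  rw [map_zero, map_sum] at e1 e2
  simp only [map_mul, AlgEquiv.commutes, hg1, hg2, hv1, hv2, Fin.sum_univ_five,
    Matrix.cons_val_zero, Matrix.cons_val_one, Matrix.cons_val] at e1 e2 h0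
  have hlK : (algebraMap k K (l 0) ^ 2 + algebraMap k K (l 1) ^ 2 + algebraMap k K (l 2) ^ 2 -
      algebraMap k K (l 0) * algebraMap k K (l 1) - algebraMap k K (l 1) * algebraMap k K (l 2) -
      algebraMap k K (l 2) * algebraMap k K (l 0)) ≠ 0 := by
    intro h
    apply hl
    apply (algebraMap k K).injective
    rw [map_zero, ← h]
    simp only [map_add, map_sub, map_mul, map_pow]
  have hD : (algebraMap k K (l 0) ^ 2 + algebraMap k K (l 1) ^ 2 + algebraMap k K (l 2) ^ 2 -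
      algebraMap k K (l 0) * algebraMap k K (l 1) - algebraMap k K (l 1) * algebraMap k K (l 2) -
      algebraMap k K (l 2) * algebraMap k K (l 0)) * (v 1 - v 0) = 0 := by
    generalize algebraMap k K (l 0) = a at *
    generalize algebraMap k K (l 1) = b at *
    generalize algebraMap k K (l 2) = c at *
    linear_combination (a - c) * (e1 - h0) - (b - c) * (e2 - h0)
  have := (mul_eq_zero.1 hD).resolve_left hlK
  have h10 := hv 1 0 (sub_eq_zero.1 this)
  exact absurd h10 (by decide)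

end KleinAux

open KleinAux

/-- Klein's resolvent `u = p_1/p_2` of a principal quintic. -/
theorem klein {k K : Type*} [Field k] [IsAlgClosed k] [CharZero k] [Field K] [Algebra k K]
    (v : Fin 5 → K) (h1 : ∑ i, v i = 0) (h2 : ∑ i, v i ^ 2 = 0)
    (hv : ∀ i j, v i = v j → i = j)
    (hA : ∀ σ ∈ alternatingGroup (Fin 5), ∃ g : K ≃ₐ[k] K, ∀ i, g (v i) = v (σ i)) :
    ∃ u ∈ adjoin k (Set.range v),
      (∀ g : K ≃ₐ[k] K, ∀ σ ∈ alternatingGroup (Fin 5), (∀ i, g (v i) = v (σ i)) →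
        g u ∈ adjoin k {u}) ∧
      (∃ σ ∈ alternatingGroup (Fin 5), ∀ g : K ≃ₐ[k] K, (∀ i, g (v i) = v (σ i)) →
        g u ≠ u) := by
  have hchar : CharZero K := charZero_of_injective_algebraMap (algebraMap k K).injective
  obtain ⟨ζ, hζ⟩ : ∃ ζ : k, IsPrimitiveRoot ζ 5 :=
    ⟨_, (HasEnoughRootsOfUnity.exists_primitiveRoot k 5).choose_spec⟩
  have hz5 : ζ ^ 5 = 1 := hζ.pow_eq_one
  have hz1 : ζ ≠ 1 := hζ.ne_one (by norm_num)
  have hz3 : ζ ^ 3 ≠ 1 := hζ.pow_ne_one_of_pos_of_lt (by norm_num) (by norm_num)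
  have hz2 : ζ ^ 2 ≠ 1 := hζ.pow_ne_one_of_pos_of_lt (by norm_num) (by norm_num)
  have hzPhi : 1 + ζ + ζ ^ 2 + ζ ^ 3 + ζ ^ 4 = 0 := by
    have : (ζ - 1) * (1 + ζ + ζ ^ 2 + ζ ^ 3 + ζ ^ 4) = 0 := by linear_combination hz5
    exact (mul_eq_zero.1 this).resolve_left (sub_ne_zero.2 hz1)
  set w : K := algebraMap k K ζ with hwdef
  have hw5 : w ^ 5 = 1 := by rw [hwdef, ← map_pow, hz5, map_one]
  have hw1 : w ≠ 1 := fun h => hz1 ((algebraMap k K).injective (by rw [← hwdef, h, map_one]))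
  have hw0 : w ≠ 0 := by
    intro h
    rw [h] at hw5
    norm_num at hw5
  have hPhi : 1 + w + w ^ 2 + w ^ 3 + w ^ 4 = 0 := by
    have := congrArg (algebraMap k K) hzPhi
    simpa only [map_add, map_pow, map_one, map_zero, ← hwdef] using this
  have hwmem : ∀ u : K, w ∈ adjoin k {u} := fun u => IntermediateField.algebraMap_mem _ _
  -- the Lagrange resolvents
  obtain ⟨p1, hp1⟩ : ∃ p1 : K, p1 = v 0 + w * v 1 + w ^ 2 * v 2 + w ^ 3 * v 3 + w ^ 4 * v 4 :=
    ⟨_, rfl⟩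
  obtain ⟨p2, hp2⟩ : ∃ p2 : K, p2 = v 0 + w ^ 2 * v 1 + w ^ 4 * v 2 + w * v 3 + w ^ 3 * v 4 :=
    ⟨_, rfl⟩
  obtain ⟨p3, hp3⟩ : ∃ p3 : K, p3 = v 0 + w ^ 3 * v 1 + w * v 2 + w ^ 4 * v 3 + w ^ 2 * v 4 :=
    ⟨_, rfl⟩
  obtain ⟨p4, hp4⟩ : ∃ p4 : K, p4 = v 0 + w ^ 4 * v 1 + w ^ 3 * v 2 + w ^ 2 * v 3 + w * v 4 :=
    ⟨_, rfl⟩
  have hne : ∀ l : Fin 5 → k,
      (l 0 ^ 2 + l 1 ^ 2 + l 2 ^ 2 - l 0 * l 1 - l 1 * l 2 - l 2 * l 0 ≠ 0) →
      algebraMap k K (l 0) * v 0 + algebraMap k K (l 1) * v 1 + algebraMap k K (l 2) * v 2 +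
        algebraMap k K (l 3) * v 3 + algebraMap k K (l 4) * v 4 ≠ 0 := by
    intro l hl
    have := no_rel v hv hA l hl
    rwa [Fin.sum_univ_five] at this
  have hfac : ∀ x : k, x ≠ 1 → x ^ 3 ≠ 1 → 1 + x + x ^ 2 + x ^ 3 + x ^ 4 = 0 →
      (1 : k) ^ 2 + x ^ 2 + (x ^ 2) ^ 2 - 1 * x - x * x ^ 2 - x ^ 2 * 1 ≠ 0 := by
    intro x hx1 hx3 hx h
    have : (1 - x) * (1 - x ^ 3) = 0 := by linear_combination h
    rcases mul_eq_zero.1 this with h' | h'
    · exact hx1 (sub_eq_zero.1 h').symm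
    · exact hx3 (sub_eq_zero.1 h').symm
  have hp1ne : p1 ≠ 0 := by
    have := hne ![1, ζ, ζ ^ 2, ζ ^ 3, ζ ^ 4] (by
      simpa using hfac ζ hz1 hz3 hzPhi)
    simp only [Matrix.cons_val_zero, Matrix.cons_val_one, Matrix.cons_val, map_one, map_pow,
      one_mul, ← hwdef] at this
    rwa [hp1]
  have hp2ne : p2 ≠ 0 := by
    have := hne ![1, ζ ^ 2, ζ ^ 4, ζ, ζ ^ 3] (by
      have h := hfac (ζ ^ 2) hz2 (by
        intro h; apply hz1; linear_combination h - ζ * hz5) (by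
        linear_combination hzPhi + (ζ + ζ ^ 3) * hz5)
      have h' : ζ ^ 4 = (ζ ^ 2) ^ 2 := by ring
      simp only [Matrix.cons_val_zero, Matrix.cons_val_one, Matrix.cons_val]
      rw [h']
      convert h using 1)
    simp only [Matrix.cons_val_zero, Matrix.cons_val_one, Matrix.cons_val, map_one, map_pow,
      one_mul, ← hwdef] at this
    rwa [hp2]
  have hrel : p1 * p4 + p2 * p3 = 0 := by
    have h1' : v 0 + v 1 + v 2 + v 3 + v 4 = 0 := by rw [← h1, Fin.sum_univ_five]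
    have h2' : v 0 ^ 2 + v 1 ^ 2 + v 2 ^ 2 + v 3 ^ 2 + v 4 ^ 2 = 0 := by
      rw [← h2, Fin.sum_univ_five]
    have h2K : (2 : K) ≠ 0 := two_ne_zero
    apply mul_left_cancel₀ h2K
    rw [hp1, hp2, hp3, hp4]
    linear_combination 5 * h2' - (v 0 + v 1 + v 2 + v 3 + v 4) * h1' + ((-4) * v 4^2 + (2) * v 3 * v 4 + (-4) * v 3^2 + (2) * v 2 * v 4 + (2) * v 2 * v 3 + (-4) * v 2^2 + (2) * v 1 * v 4 + (2) * v 1 * v 3 + (2) * v 1 * v 2 + (-4) * v 1^2 + (2) * v 0 * v 4 + (2) * v 0 * v 3 + (2) * v 0 * v 2 + (2) * v 0 * v 1 + (4) * w * v 4^2 + (-2) * w * v 3 * v 4 + (4) * w * v 3^2 + (-2) * w * v 2 * v 4 + (-2) * w * v 2 * v 3 + (4) * w * v 2^2 + (-2) * w * v 1 * v 4 + (-2) * w * v 1 * v 3 + (-2) * w * v 1 * v 2 + (4) * w * v 1^2 + (2) * w^2 * v 2 * v 3 + (2) * w^2 * v 1 * v 4 + (2) * w^3 * v 3 * v 4 + (2) * w^3 * v 2 * v 4 + (-2) * w^3 * v 2 * v 3 + (-2) * w^3 * v 1 * v 4 + (2) * w^3 * v 1 * v 3 + (2) * w^3 * v 1 * v 2 + (2)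 * w^4 * v 2 * v 3 + (2) * w^4 * v 1 * v 4) * hPhi
  have hu1 : p1 / p2 ≠ 0 := div_ne_zero hp1ne hp2ne
  have hgw : ∀ g : K ≃ₐ[k] K, g w = w := fun g => by rw [hwdef, AlgEquiv.commutes]
  have hga : ∀ g : K ≃ₐ[k] K, (∀ i, g (v i) = v (ra i)) → g (p1 / p2) = w * (p1 / p2) := by
    intro g hg
    have e1 : g p1 = w ^ 4 * p1 := by
      rw [hp1]
      simp only [map_add, map_mul, map_pow, hgw, hg, ra_val]
      linear_combination ((1) * v 1 + (1) * w * v 2 + (-1) * w * v 1 + (1) * w^2 * v 3 + (-1) * w^2 * v 2 + (1) * w^3 * v 4 + (-1) * w^3 * v 3 + (-1) * w^4 * v 4) * hPhi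
    have e2 : g p2 = w ^ 3 * p2 := by
      rw [hp2]
      simp only [map_add, map_mul, map_pow, hgw, hg, ra_val]
      linear_combination ((1) * v 1 + (1) * w * v 4 + (-1) * w * v 1 + (-1) * w^2 * v 4 + (1) * w^2 * v 2 + (-1) * w^3 * v 2) * hPhi
    rw [map_div₀, e1, e2]
    field_simp
  refine ⟨p1 / p2, ?_, ?_, ra, ra_mem, ?_⟩
  · have hvmem : ∀ i, v i ∈ adjoin k (Set.range v) := fun i =>
      subset_adjoin k _ (Set.mem_range_self i)
    have hwm : w ∈ adjoin k (Set.range v) := IntermediateField.algebraMap_mem _ _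
    refine div_mem ?_ ?_
    · rw [hp1]
      exact add_mem (add_mem (add_mem (add_mem (hvmem 0) (mul_mem hwm (hvmem 1)))
        (mul_mem (pow_mem hwm _) (hvmem 2))) (mul_mem (pow_mem hwm _) (hvmem 3)))
        (mul_mem (pow_mem hwm _) (hvmem 4))
    · rw [hp2]
      exact add_mem (add_mem (add_mem (add_mem (hvmem 0) (mul_mem (pow_mem hwm _) (hvmem 1)))
        (mul_mem (pow_mem hwm _) (hvmem 2))) (mul_mem hwm (hvmem 3)))
        (mul_mem (pow_mem hwm _) (hvmem 4))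
  · have hu : p1 / p2 ∈ adjoin k (Set.range v) := by
      have hvmem : ∀ i, v i ∈ adjoin k (Set.range v) := fun i =>
        subset_adjoin k _ (Set.mem_range_self i)
      have hwm : w ∈ adjoin k (Set.range v) := IntermediateField.algebraMap_mem _ _
      refine div_mem ?_ ?_
      · rw [hp1]
        exact add_mem (add_mem (add_mem (add_mem (hvmem 0) (mul_mem hwm (hvmem 1)))
          (mul_mem (pow_mem hwm _) (hvmem 2))) (mul_mem (pow_mem hwm _) (hvmem 3)))
          (mul_mem (pow_mem hwm _) (hvmem 4))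
      · rw [hp2]
        exact add_mem (add_mem (add_mem (add_mem (hvmem 0) (mul_mem (pow_mem hwm _) (hvmem 1)))
          (mul_mem (pow_mem hwm _) (hvmem 2))) (mul_mem hwm (hvmem 3)))
          (mul_mem (pow_mem hwm _) (hvmem 4))
    intro g σ hσ hg
    refine good_of_gens v (p1 / p2) hu hA ?_ ?_ ?_ σ hσ g hg
    · intro g hg
      rw [hga g hg]
      exact mul_mem (hwmem _) (mem_adjoin_simple_self k _)
    · intro g hg
      have e1 : g p1 = p4 := by
        rw [hp1, hp4]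
        simp only [map_add, map_mul, map_pow, hgw, hg, rb_val]
        ring
      have e2 : g p2 = p3 := by
        rw [hp2, hp3]
        simp only [map_add, map_mul, map_pow, hgw, hg, rb_val]
        ring
      have hp3ne : p3 ≠ 0 := by
        rw [← e2]
        exact (map_ne_zero g).2 hp2ne
      have : g (p1 / p2) = -(p1 / p2)⁻¹ := by
        rw [map_div₀, e1, e2, inv_div, ← neg_div, div_eq_div_iff hp3ne hp1ne]
        linear_combination hrel
      rw [this]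
      exact neg_mem (inv_mem (mem_adjoin_simple_self k _))
    · intro g hg
      obtain ⟨s, hsdef⟩ : ∃ s : K, s = 1 + 2 * w + 2 * w ^ 4 := ⟨_, rfl⟩
      have hs2 : s ^ 2 = 5 := by
        rw [hsdef]
        linear_combination ((-4) + (8) * w + (-4) * w^3 + (4) * w^4) * hPhi
      have hsmem : s ∈ adjoin k {p1 / p2} := by
        rw [hsdef]
        refine add_mem (add_mem (one_mem _) (mul_mem ?_ (hwmem _)))
          (mul_mem ?_ (pow_mem (hwmem _) _))
        · exact ofNat_mem _ 2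
        · exact ofNat_mem _ 2
      have e1 : 10 * g p1 = 2 * s * p1 + (5 - s) * p2 + (5 + s) * p3 - 2 * s * p4 := by
        rw [hp1, hp2, hp3, hp4, hsdef]
        simp only [map_add, map_mul, map_pow, hgw, hg, rt_val]
        linear_combination ((2) * w * v 4 + (-4) * w * v 3 + (4) * w * v 2 + (-2) * w * v 1 + (-4) * w^2 * v 4 + (8) * w^2 * v 3 + (-8) * w^2 * v 2 + (4) * w^2 * v 1 + (6) * w^3 * v 4 + (-2) * w^3 * v 3 + (2) * w^3 * v 2 + (-6) * w^3 * v 1 + (-4) * w^4 * v 4 + (-2) * w^4 * v 3 + (2) * w^4 * v 2 + (4) * w^4 * v 1) * hPhi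
      have e2 : 10 * g p2 = (5 - s) * p1 - 2 * s * p2 + 2 * s * p3 + (5 + s) * p4 := by
        rw [hp1, hp2, hp3, hp4, hsdef]
        simp only [map_add, map_mul, map_pow, hgw, hg, rt_val]
        linear_combination ((4) * w * v 4 + (2) * w * v 3 + (-2) * w * v 2 + (-4) * w * v 1 + (-8) * w^2 * v 4 + (-4) * w^2 * v 3 + (4) * w^2 * v 2 + (8) * w^2 * v 1 + (2) * w^3 * v 4 + (6) * w^3 * v 3 + (-6) * w^3 * v 2 + (-2) * w^3 * v 1 + (2) * w^4 * v 4 + (-4) * w^4 * v 3 + (4) * w^4 * v 2 + (-2) * w^4 * v 1) * hPhi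
      have h10 : (10 : K) ≠ 0 := by norm_num
      have key : g p1 * ((5 - s) * p1 - 2 * s * p2) = g p2 * (2 * s * p1 + (5 - s) * p2) := by
        apply mul_left_cancel₀ h10
        linear_combination ((5 - s) * p1 - 2 * s * p2) * e1 - (2 * s * p1 + (5 - s) * p2) * e2
          - 20 * s * hrel + (-5 * p1 * p3 + 5 * p2 * p4) * hs2
      have hd : (5 - s) * p1 - 2 * s * p2 ≠ 0 := by
        intro h0
        rw [h0, mul_zero] at key
        have h3 : 2 * s * p1 + (5 - s) * p2 = 0 :=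
          (mul_eq_zero.1 key.symm).resolve_left ((map_ne_zero g).2 hp2ne)
        have h4 : (50 - 10 * s) * p1 = 0 := by
          linear_combination (5 - s) * h0 + 2 * s * h3 - 5 * p1 * hs2
        have h5 : (50 - 10 * s) = 0 := (mul_eq_zero.1 h4).resolve_right hp1ne
        have h6 : (20 : K) = 0 := by
          linear_combination ((s + 5) / 10) * h5 + hs2
        norm_num at h6
      have : g (p1 / p2) = (2 * s * (p1 / p2) + (5 - s)) / ((5 - s) * (p1 / p2) - 2 * s) := by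
        have hd' : (5 - s) * (p1 / p2) - 2 * s ≠ 0 := by
          intro h
          apply hd
          have : ((5 - s) * (p1 / p2) - 2 * s) * p2 = 0 := by rw [h, zero_mul]
          field_simp at this
          linear_combination this
        rw [map_div₀, div_eq_div_iff ((map_ne_zero g).2 hp2ne) hd']
        field_simp
        linear_combination key
      rw [this]
      have h2m : (2 : K) ∈ adjoin k {p1 / p2} := ofNat_mem _ 2
      have h5m : (5 : K) ∈ adjoin k {p1 / p2} := ofNat_mem _ 5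
      have hum := mem_adjoin_simple_self k (p1 / p2)
      exact div_mem (add_mem (mul_mem (mul_mem h2m hsmem) hum) (sub_mem h5m hsmem))
        (sub_mem (mul_mem (sub_mem h5m hsmem) hum) (mul_mem h2m hsmem))
  · intro g hg h
    rw [hga g hg] at h
    have : (w - 1) * (p1 / p2) = 0 := by linear_combination h
    rcases mul_eq_zero.1 this with h' | h'
    · exact hw1 (sub_eq_zero.1 h')
    · exact hu1 h'

end Pool.Agent.Helper85.SC
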