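import Pool.Agent.Helper85.SC.Prin
import Pool.Agent.Helper85.SC.Klein

namespace Pool.Agent.Helper85.SC

open IntermediateField Polynomial

variable {k : Type*} {K : Type*} [Field k] [Field K] [Algebra k K]

private theorem vand_map {F : IntermediateField k K} {y : Fin 5 → K} (g : K ≃ₐ[F] K)
    (σ : Equiv.Perm (Fin 5)) (h : ∀ i, g (y i) = y (σ i)) :
    g (Matrix.vandermonde y).det
      = ((Equiv.Perm.sign σ : ℤ) : K) * (Matrix.vandermonde y).det := by
  have h1 : g (Matrix.vandermonde y).det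
      = ((g : K →+* K).mapMatrix (Matrix.vandermonde y)).det :=
    RingHom.map_det (g : K →+* K) _
  have h2 : (g : K →+* K).mapMatrix (Matrix.vandermonde y)
      = (Matrix.vandermonde y).submatrix σ id := by
    ext i j
    simp [Matrix.vandermonde_apply, h]
  rw [h1, h2, Matrix.det_permute]

private theorem sqrt_mem_next {F : IntermediateField k K} {z : K} (hz : z ^ 2 ∈ F) :
    z ∈ next k 1 F := by
  refine mem_next_of_root le_rfl hz (X ^ 2 - C (z ^ 2))
    (X_pow_sub_C_ne_zero (by norm_num) _) ?_ (by simp)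
  intro i
  rw [coeff_sub, coeff_X_pow, coeff_C]
  refine sub_mem ?_ ?_
  · split_ifs
    · exact one_mem _
    · exact zero_mem _
  · split_ifs
    · exact subset_adjoin k _ (Set.mem_singleton _)
    · exact zero_mem _

/-- an element of `k(u)` outside `k` generates a field over which `u` is algebraic -/
private theorem alg_over_of_mem {u t : K} (ht : t ∈ adjoin k {u})
    (htk : t ∉ (algebraMap k K).range) : IsAlgebraic (adjoin k {t}) u := by
  obtain ⟨r, s, hrs⟩ := (mem_adjoin_simple_iff k t).1 ht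
  have hs0 : aeval u s ≠ 0 := by
    intro h
    rw [h, div_zero] at hrs
    exact htk ⟨0, by rw [map_zero, hrs]⟩
  have hs : s ≠ 0 := by
    rintro rfl
    exact hs0 (by simp)
  let t' : adjoin k {t} := ⟨t, subset_adjoin k _ (Set.mem_singleton _)⟩
  refine ⟨r.map (algebraMap k (adjoin k {t})) - C t' * s.map (algebraMap k (adjoin k {t})),
    ?_, ?_⟩
  · intro h0
    obtain ⟨i, hi⟩ : ∃ i, s.coeff i ≠ 0 := by
      by_contra hcon
      push Not at hcon
      exact hs (Polynomial.ext hcon)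
    have h1 := congrArg (fun p => ((p.coeff i : adjoin k {t}) : K)) h0
    simp only [coeff_sub, coeff_C_mul, coeff_map, coeff_zero] at h1
    have h2 : algebraMap k K (r.coeff i) - t * algebraMap k K (s.coeff i) = 0 := h1
    apply htk
    refine ⟨r.coeff i / s.coeff i, ?_⟩
    have h3 : algebraMap k K (s.coeff i) ≠ 0 := by
      simpa using hi
    rw [map_div₀, div_eq_iff h3]
    exact sub_eq_zero.1 h2
  · have h1 : aeval u (r.map (algebraMap k (adjoin k {t}))) = aeval u r :=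
      aeval_map_algebraMap _ _ _
    have h2 : aeval u (s.map (algebraMap k (adjoin k {t}))) = aeval u s :=
      aeval_map_algebraMap _ _ _
    rw [map_sub, map_mul, h1, h2, aeval_C]
    have h3 : algebraMap (adjoin k {t}) K t' = t := rfl
    rw [h3, hrs, div_mul_cancel₀ _ hs0, sub_self]

theorem quintic [IsAlgClosed k] [IsAlgClosed K] [CharZero k] {F : IntermediateField k K}
    {y : Fin 5 → K} (hG : Gen F y) (i₀ : Fin 5) : y i₀ ∈ next k 1 (next k 1 F) := by
  classical
  have hK : CharZero K := charZero_of_injective_algebraMap (algebraMap k K).injective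
  obtain ⟨e, v, he, hv1, hv2, hvg, hvi⟩ := principal hG
  have hyi : Function.Injective y := hG.ind.injective
  set D : K := (Matrix.vandermonde y).det with hD
  have hD0 : D ≠ 0 := Matrix.det_vandermonde_ne_zero_iff.2 hyi
  -- composition and inverses
  have omul : ∀ (g g' : K ≃ₐ[F] K) (σ σ' : Equiv.Perm (Fin 5)), (∀ i, g (y i) = y (σ i)) →
      (∀ i, g' (y i) = y (σ' i)) → ∀ i, (g * g') (y i) = y ((σ * σ') i) := by
    intro g g' σ σ' h h' i
    rw [AlgEquiv.mul_apply, h', h]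
    rfl
  have oinv : ∀ (g : K ≃ₐ[F] K) (σ : Equiv.Perm (Fin 5)), (∀ i, g (y i) = y (σ i)) →
      ∀ i, g⁻¹ (y i) = y (σ⁻¹ i) := by
    intro g σ h i
    apply g.injective
    rw [h]
    have h1 : g (g⁻¹ (y i)) = (g * g⁻¹) (y i) := rfl
    rw [h1, mul_inv_cancel]
    simp
  -- the good automorphisms
  let A : (K ≃ₐ[F] K) → Prop := fun g => g e = e ∧ ∃ σ ∈ alternatingGroup (Fin 5),
    ∀ i, g (y i) = y (σ i)
  have A1 : A 1 := ⟨rfl, 1, one_mem _, fun i => rfl⟩
  have Amul : ∀ g g', A g → A g' → A (g * g') := by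
    rintro g g' ⟨h1, σ, hσ, h2⟩ ⟨h1', σ', hσ', h2'⟩
    exact ⟨by rw [AlgEquiv.mul_apply, h1', h1], σ * σ', mul_mem hσ hσ', omul _ _ _ _ h2 h2'⟩
  have einv : ∀ g : K ≃ₐ[F] K, g e = e → g⁻¹ e = e := by
    intro g h
    apply g.injective
    have h1 : g (g⁻¹ e) = (g * g⁻¹) e := rfl
    rw [h1, mul_inv_cancel, h]
    rfl
  have Ainv : ∀ g, A g → A g⁻¹ := by
    rintro g ⟨h1, σ, hσ, h2⟩
    exact ⟨einv g h1, σ⁻¹, inv_mem hσ, oinv _ _ h2⟩
  -- every even permutation is induced by a good automorphism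
  have hsq : ∀ g : K ≃ₐ[F] K, g e = e ∨ g e = -e := by
    intro g
    have h1 : g e ^ 2 = e ^ 2 := by
      rw [← map_pow]
      exact g.commutes ⟨e ^ 2, he⟩
    exact sq_eq_sq_iff_eq_or_eq_neg.1 h1
  let H : Subgroup (Equiv.Perm (Fin 5)) :=
    { carrier := {σ | ∃ g : K ≃ₐ[F] K, g e = e ∧ ∀ i, g (y i) = y (σ i)}
      mul_mem' := by
        rintro σ σ' ⟨g, h1, h2⟩ ⟨g', h1', h2'⟩
        exact ⟨g * g', by rw [AlgEquiv.mul_apply, h1', h1], omul _ _ _ _ h2 h2'⟩
      one_mem' := ⟨1, rfl, fun i => rfl⟩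
      inv_mem' := by
        rintro σ ⟨g, h1, h2⟩
        exact ⟨g⁻¹, einv g h1, oinv _ _ h2⟩ }
  have hH : alternatingGroup (Fin 5) ≤ H := by
    rw [← Equiv.Perm.closure_three_cycles_eq_alternating, Subgroup.closure_le]
    intro c hc
    obtain ⟨g, hg⟩ := hG.lift (c ^ 2)
    refine ⟨g * g, ?_, ?_⟩
    · rw [AlgEquiv.mul_apply]
      rcases hsq g with h | h
      · rw [h, h]
      · rw [h, map_neg, h, neg_neg]
    · have h1 := omul g g _ _ hg hg
      have h2 : c ^ 2 * c ^ 2 = c := by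
        have h3 : c ^ 3 = 1 := by
          rw [← hc.orderOf]
          exact pow_orderOf_eq_one c
        calc c ^ 2 * c ^ 2 = c ^ 3 * c := by group
          _ = c := by rw [h3, one_mul]
      rw [h2] at h1
      exact h1
  have hAex : ∀ σ ∈ alternatingGroup (Fin 5), ∃ g, A g ∧ ∀ i, g (y i) = y (σ i) := by
    intro σ hσ
    obtain ⟨g, h1, h2⟩ := hH hσ
    exact ⟨g, ⟨h1, σ, hσ, h2⟩, h2⟩
  obtain ⟨u, hu, hu1, σ₀, hσ₀, hu2⟩ := klein v hv1 hv2 hvi (by
    intro σ hσ
    obtain ⟨g, hg, hgσ⟩ := hAex σ hσ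
    exact ⟨g.restrictScalars k, fun i => hvg g hg.1 σ hgσ i⟩)
  have hu1' : ∀ g, A g → g u ∈ adjoin k {u} := by
    rintro g ⟨h1, σ, hσ, h2⟩
    exact hu1 (g.restrictScalars k) σ hσ (fun i => hvg g h1 σ h2 i)
  have hu2' : ∀ g : K ≃ₐ[F] K, g e = e → (∀ i, g (y i) = y (σ₀ i)) → g u ≠ u := by
    intro g h1 h2
    exact hu2 (g.restrictScalars k) (fun i => hvg g h1 σ₀ h2 i)
  -- the field K0
  set K0 : IntermediateField k K := F ⊔ adjoin k {e, D} with hK0
  have hFK0 : F ≤ K0 := le_sup_left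
  have heK0 : e ∈ K0 := (le_sup_right : adjoin k {e, D} ≤ K0) (subset_adjoin k _ (by simp))
  have hDK0 : D ∈ K0 := (le_sup_right : adjoin k {e, D} ≤ K0) (subset_adjoin k _ (by simp))
  have hsign : ∀ (g : K ≃ₐ[F] K) (σ : Equiv.Perm (Fin 5)), (∀ i, g (y i) = y (σ i)) →
      g D = D → σ ∈ alternatingGroup (Fin 5) := by
    intro g σ h1 h2
    rw [Equiv.Perm.mem_alternatingGroup]
    have h3 := vand_map g σ h1
    rw [← hD, h2] at h3
    rcases Int.units_eq_one_or (Equiv.Perm.sign σ) with h | h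
    · exact h
    · exfalso
      rw [h] at h3
      have h4 : D = -D := by
        conv_lhs => rw [h3]
        simp
      have h5 : (2 : K) * D = 0 := by linear_combination h4
      rcases mul_eq_zero.1 h5 with h6 | h6
      · exact two_ne_zero h6
      · exact hD0 h6
  have hfixA : ∀ g : K ≃ₐ[F] K, (∀ w ∈ K0, g w = w) → A g := by
    intro g hg
    obtain ⟨σ, hσ⟩ := hG.perm g
    exact ⟨hg e heK0, σ, hsign g σ hσ (hg D hDK0), hσ⟩
  have hD2 : D ^ 2 ∈ F := by
    refine mem_base_of_fixed hG.alg fun g => ?_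
    obtain ⟨σ, hσ⟩ := hG.perm g
    rw [map_pow, hD, vand_map g σ hσ]
    rcases Int.units_eq_one_or (Equiv.Perm.sign σ) with h | h <;> rw [h] <;> simp
  have hK0n : K0 ≤ next k 1 F := by
    refine sup_le (le_next le_rfl F) (adjoin_le_iff.2 ?_)
    intro z hz
    rcases hz with rfl | hz
    · exact sqrt_mem_next he
    · rw [Set.mem_singleton_iff.1 hz]
      exact sqrt_mem_next hD2
  -- the orbit of u
  set O : Set K := {o | ∃ g, A g ∧ g u = o} with hO
  have hOfin : O.Finite := by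
    have h1 : IsIntegral F u := (hG.alg.isAlgebraic u).isIntegral
    refine ((minpoly F u).rootSet_finite K).subset ?_
    rintro o ⟨g, _, rfl⟩
    rw [mem_rootSet_of_ne (minpoly.ne_zero h1)]
    have h2 : aeval (g u) (minpoly F u) = g (aeval u (minpoly F u)) :=
      (Polynomial.aeval_algHom_apply (g : K →ₐ[F] K) u (minpoly F u))
    rw [h2, minpoly.aeval, map_zero]
  have hOstab : ∀ g, A g → ∀ o ∈ O, g o ∈ O := by
    rintro g hg o ⟨g', hg', rfl⟩
    exact ⟨g * g', Amul _ _ hg hg', rfl⟩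
  have huO : u ∈ O := ⟨1, A1, rfl⟩
  let S : Finset K := hOfin.toFinset
  have hS : ∀ o, o ∈ S ↔ o ∈ O := fun o => hOfin.mem_toFinset
  let q : K[X] := ∏ o ∈ S, (X - C o)
  have hqm : q.Monic := monic_prod_of_monic _ _ fun o _ => monic_X_sub_C o
  have hqmap : ∀ g : K ≃ₐ[F] K, A g → q.map (g : K →+* K) = q := by
    intro g hg
    simp only [q]
    rw [Polynomial.map_prod]
    simp only [Polynomial.map_sub, Polynomial.map_X, Polynomial.map_C]
    refine Finset.prod_nbij (fun o => g o) ?_ ?_ ?_ ?_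
    · intro o ho
      rw [hS] at ho ⊢
      exact hOstab g hg o ho
    · intro a _ b _ hab
      exact g.injective hab
    · intro o ho
      rw [Finset.mem_coe, hS] at ho
      refine ⟨g⁻¹ o, ?_, ?_⟩
      · rw [Finset.mem_coe, hS]
        exact hOstab _ (Ainv g hg) o ho
      · change (g * g⁻¹) o = o
        rw [mul_inv_cancel]
        rfl
    · intro o _
      rfl
  have hqK0 : ∀ i, q.coeff i ∈ K0 := by
    intro i
    refine mem_of_fixed hG.alg hFK0 fun g hg => ?_
    have h1 := congrArg (fun p => p.coeff i) (hqmap g (hfixA g hg))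
    simp only [coeff_map] at h1
    exact h1
  have hqu : ∀ i, q.coeff i ∈ adjoin k {u} := by
    have hlift : q ∈ Polynomial.lifts (algebraMap (adjoin k {u}) K) := by
      refine Subsemiring.prod_mem _ fun o ho => ?_
      rw [hS] at ho
      obtain ⟨g, hg, rfl⟩ := ho
      refine (Polynomial.mem_lifts _).2 ⟨X - C ⟨g u, hu1' g hg⟩, ?_⟩
      simp
    rw [Polynomial.lifts_iff_coeff_lifts] at hlift
    intro i
    obtain ⟨z, hz⟩ := hlift i
    rw [← hz]
    exact z.2
  have hroot : q.eval u = 0 := by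
    simp only [q]
    rw [eval_prod]
    exact Finset.prod_eq_zero ((hS u).2 huO) (by simp)
  obtain ⟨i, hi⟩ : ∃ i, q.coeff i ∉ (algebraMap k K).range := by
    by_contra hcon
    push Not at hcon
    have hlift : q ∈ Polynomial.lifts (algebraMap k K) := by
      rw [Polynomial.lifts_iff_coeff_lifts]
      exact hcon
    obtain ⟨q', hq'⟩ := (Polynomial.mem_lifts q).1 hlift
    have h1 : IsAlgebraic k u := by
      refine ⟨q', ?_, ?_⟩
      · rintro rfl
        rw [Polynomial.map_zero] at hq'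
        exact hqm.ne_zero hq'.symm
      · rw [aeval_def, eval₂_eq_eval_map, hq', hroot]
    have h2 := IsAlgClosed.degree_eq_one_of_irreducible k (minpoly.irreducible h1.isIntegral)
    obtain ⟨a, ha⟩ := minpoly.mem_range_of_degree_eq_one k u h2
    obtain ⟨g, hg, hgσ⟩ := hAex σ₀ hσ₀
    apply hu2' g hg.1 hgσ
    rw [← ha]
    exact (g.restrictScalars k).commutes a
  have huM : u ∈ next k 1 (next k 1 F) :=
    mem_next_of_algebraic le_rfl (hK0n (hqK0 i)) (alg_over_of_mem (hqu i) hi)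
  have hFM : next k 1 F ≤ next k 1 (next k 1 F) := le_next le_rfl _
  have hOM : ∀ o ∈ O, o ∈ next k 1 (next k 1 F) := by
    rintro o ⟨g, hg, rfl⟩
    exact (adjoin_le_iff.2 (by simpa using huM) : adjoin k {u} ≤ next k 1 (next k 1 F))
      (hu1' g hg)
  -- the normal subgroup of A_5
  let N : Subgroup (alternatingGroup (Fin 5)) :=
    { carrier := {σ | ∃ g : K ≃ₐ[F] K, (∀ i, g (y i) = y (σ.1 i)) ∧ g e = e ∧
        ∀ o ∈ O, g o = o}
      mul_mem' := by
        rintro σ σ' ⟨g, h1, h2, h3⟩ ⟨g', h1', h2', h3'⟩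
        refine ⟨g * g', omul _ _ _ _ h1 h1', by rw [AlgEquiv.mul_apply, h2', h2], ?_⟩
        intro o ho
        rw [AlgEquiv.mul_apply, h3' o ho, h3 o ho]
      one_mem' := ⟨1, fun i => rfl, rfl, fun o _ => rfl⟩
      inv_mem' := by
        rintro σ ⟨g, h1, h2, h3⟩
        refine ⟨g⁻¹, oinv _ _ h1, einv g h2, ?_⟩
        intro o ho
        apply g.injective
        have h4 : g (g⁻¹ o) = (g * g⁻¹) o := rfl
        rw [h4, mul_inv_cancel, h3 o ho]
        rfl }
  have hN : N.Normal := by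
    constructor
    rintro σ ⟨g, h1, h2, h3⟩ τ
    obtain ⟨h, hA, hh⟩ := hAex τ.1 τ.2
    refine ⟨h * g * h⁻¹, ?_, ?_, ?_⟩
    · exact omul _ _ _ _ (omul _ _ _ _ hh h1) (oinv _ _ hh)
    · rw [AlgEquiv.mul_apply, AlgEquiv.mul_apply, einv h hA.1, h2, hA.1]
    · intro o ho
      rw [AlgEquiv.mul_apply, AlgEquiv.mul_apply, h3 _ (hOstab _ (Ainv h hA) o ho)]
      change (h * h⁻¹) o = o
      rw [mul_inv_cancel]
      rfl
  have hsimple : IsSimpleGroup (alternatingGroup (Fin 5)) := alternatingGroup.isSimpleGroup (by simp)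
  have hNbot : N = ⊥ := by
    rcases hN.eq_bot_or_eq_top with h | h
    · exact h
    · exfalso
      have h1 : (⟨σ₀, hσ₀⟩ : alternatingGroup (Fin 5)) ∈ N := by
        rw [h]; exact Subgroup.mem_top _
      obtain ⟨g, h2, h3, h4⟩ := h1
      exact hu2' g h3 h2 (h4 u huO)
  refine mem_of_fixed hG.alg ((le_next le_rfl F).trans hFM) fun g hg => ?_
  obtain ⟨h1, σ, hσ, h2⟩ := hfixA g fun w hw => hg w (hFM (hK0n hw))
  have h3 : (⟨σ, hσ⟩ : alternatingGroup (Fin 5)) ∈ N := ⟨g, h2, h1, fun o ho => hg o (hOM o ho)⟩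
  rw [hNbot, Subgroup.mem_bot] at h3
  have h4 : σ = 1 := congrArg Subtype.val h3
  rw [h2, h4]
  rfl

end Pool.Agent.Helper85.SC
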