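import Pool.Agent.Helper85.SC.GenLem

namespace Pool.Agent.Helper85.SC

open IntermediateField

variable {k : Type*} {K : Type*} [Field k] [Field K] [Algebra k K]

namespace SmallAux

open Polynomial in
theorem mem_of_monic {n : ℕ} {F : IntermediateField k K} {t z : K} (ht : t ∈ F) (f : Fin n → K)
    (hf : ∀ i, f i ∈ adjoin k {t}) (h : z ^ n + ∑ i : Fin n, f i * z ^ (i : ℕ) = 0) :
    z ∈ next k 1 F := by
  refine mem_next_of_algebraic le_rfl ht
    ⟨X ^ n + ∑ i : Fin n, C (⟨f i, hf i⟩ : adjoin k {t}) * X ^ (i : ℕ), ?_, ?_⟩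
  · exact (monic_X_pow_add (degree_sum_fin_lt _)).ne_zero
  · rw [map_add, map_pow, aeval_X, map_sum]
    simp only [map_mul, map_pow, aeval_X, aeval_C]
    exact h

theorem self_mem (t : K) : t ∈ adjoin k {t} := subset_adjoin k _ rfl

theorem mem_sqrt {F : IntermediateField k K} {z : K} (h : z ^ 2 ∈ F) : z ∈ next k 1 F := by
  refine mem_of_monic (n := 2) h ![- z ^ 2, 0] ?_ ?_
  · intro i
    fin_cases i
    · exact neg_mem (self_mem _)
    · exact zero_mem _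
  · simp [Fin.sum_univ_two]

theorem mem_cbrt {F : IntermediateField k K} {z : K} (h : z ^ 3 ∈ F) : z ∈ next k 1 F := by
  refine mem_of_monic (n := 3) h ![- z ^ 3, 0, 0] ?_ ?_
  · intro i
    fin_cases i
    · exact neg_mem (self_mem _)
    · exact zero_mem _
    · exact zero_mem _
  · simp [Fin.sum_univ_three]

theorem mem_cubic_one {F : IntermediateField k K} {z T : K} (hT : T ∈ F)
    {a b : K} (ha : a ∈ adjoin k {T}) (hb : b ∈ adjoin k {T}) (h : z ^ 3 + a * z + b = 0) :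
    z ∈ next k 1 F := by
  refine mem_of_monic (n := 3) hT ![b, a, 0] ?_ ?_
  · intro i
    fin_cases i
    · exact hb
    · exact ha
    · exact zero_mem _
  · simp [Fin.sum_univ_three]
    linear_combination h

theorem mem_six {F : IntermediateField k K} {z T : K} (hT : T ∈ F)
    {a b : K} (ha : a ∈ adjoin k {T}) (hb : b ∈ adjoin k {T}) (h : z ^ 6 + a * z ^ 2 + b = 0) :
    z ∈ next k 1 F := by
  refine mem_of_monic (n := 6) hT ![b, 0, a, 0, 0, 0] ?_ ?_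
  · intro i
    fin_cases i
    · exact hb
    · exact zero_mem _
    · exact ha
    · exact zero_mem _
    · exact zero_mem _
    · exact zero_mem _
  · simp [Fin.sum_univ_succ]
    linear_combination h

theorem F_le (F : IntermediateField k K) : F ≤ next k 1 F := le_next le_rfl F

/-- depressed cubic -/
theorem mem_cubic_dep {F : IntermediateField k K} {z p q : K} (hp : p ∈ F) (hq : q ∈ F)
    (h : z ^ 3 + p * z + q = 0) : z ∈ next k 1 F := by
  by_cases hp0 : p = 0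
  · refine mem_cbrt ?_
    have : z ^ 3 = - q := by rw [hp0] at h; linear_combination h
    rw [this]; exact neg_mem hq
  by_cases hq0 : q = 0
  · by_cases hz : z = 0
    · rw [hz]; exact zero_mem _
    · refine mem_sqrt ?_
      have : z ^ 2 = - p := by
        have h1 : z * (z ^ 2 + p) = 0 := by rw [hq0] at h; linear_combination h
        rcases mul_eq_zero.mp h1 with h2 | h2
        · exact absurd h2 hz
        · linear_combination h2
      rw [this]; exact neg_mem hp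
  set T := p ^ 3 / q ^ 2 with hT
  have hTF : T ∈ F := div_mem (pow_mem hp 3) (pow_mem hq 2)
  have h1 : (p * z / q) ^ 3 + T * (p * z / q) + T = 0 := by
    rw [hT]
    field_simp
    linear_combination p ^ 3 * h
  have h2 := mem_cubic_one hTF (self_mem T) (self_mem T) h1
  have h3 : z = (q / p) * (p * z / q) := by field_simp
  rw [h3]
  exact mul_mem (F_le F (div_mem hq hp)) h2

/-- general cubic -/
theorem mem_cubic [CharZero K] {F : IntermediateField k K} {z a b c : K} (ha : a ∈ F) (hb : b ∈ F)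
    (hc : c ∈ F) (h : z ^ 3 + a * z ^ 2 + b * z + c = 0) : z ∈ next k 1 F := by
  have h3 : (3 : K) ∈ F := ofNat_mem F 3
  have h27 : (27 : K) ∈ F := ofNat_mem F 27
  have h2 : (2 : K) ∈ F := ofNat_mem F 2
  have e : (z + a / 3) ^ 3 + (b - a ^ 2 / 3) * (z + a / 3) + (2 * a ^ 3 / 27 - a * b / 3 + c) = 0 := by
    linear_combination h
  have h1 := mem_cubic_dep (F := F) (sub_mem hb (div_mem (pow_mem ha 2) h3))
    (add_mem (sub_mem (div_mem (mul_mem h2 (pow_mem ha 3)) h27) (div_mem (mul_mem ha hb) h3)) hc) e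
  have h4 : z = (z + a / 3) - a / 3 := by ring
  rw [h4]
  exact sub_mem h1 (F_le F (div_mem ha h3))

/-- trace zero lemma -/
theorem sqrt_of_trace_zero [IsAlgClosed K] {F : IntermediateField k K} {w1 w2 w3 : K}
    (h0 : w1 + w2 + w3 = 0) (h2 : w1 * w2 + w1 * w3 + w2 * w3 ∈ F) (h3 : w1 * w2 * w3 ∈ F)
    (hne : w1 * w2 * w3 ≠ 0) : ∃ r ∈ next k 1 F, r ^ 2 = w1 * (w1 * w2 * w3) := by
  obtain ⟨e2, he2⟩ : ∃ e, e = w1 * w2 + w1 * w3 + w2 * w3 := ⟨_, rfl⟩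
  obtain ⟨e3, he3⟩ : ∃ e, e = w1 * w2 * w3 := ⟨_, rfl⟩
  rw [← he2] at h2
  rw [← he3] at h3 hne ⊢
  have hroot : w1 ^ 3 + e2 * w1 - e3 = 0 := by
    rw [he2, he3]
    linear_combination w1 ^ 2 * h0
  by_cases h20 : e2 = 0
  · have h4 : w1 ^ 3 = e3 := by rw [h20] at hroot; linear_combination hroot
    have h5 : w1 ∈ next k 1 F := mem_cbrt (by rw [h4]; exact h3)
    exact ⟨w1 ^ 2, pow_mem h5 2, by rw [← h4]; ring⟩
  · obtain ⟨T, hT⟩ : ∃ T, T = e2 ^ 3 / e3 ^ 2 := ⟨_, rfl⟩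
    obtain ⟨v, hv⟩ : ∃ v, v = w1 * e2 / e3 := ⟨_, rfl⟩
    have hTF : T ∈ F := by rw [hT]; exact div_mem (pow_mem h2 3) (pow_mem h3 2)
    have hT0 : T ≠ 0 := by rw [hT]; exact div_ne_zero (pow_ne_zero _ h20) (pow_ne_zero _ hne)
    have hvT : v ^ 3 + T * (v - 1) = 0 := by
      rw [hv, hT]
      field_simp
      linear_combination e2 ^ 3 * hroot
    obtain ⟨ρ, hρ⟩ := IsAlgClosed.exists_pow_nat_eq (v / T) (n := 2) (by norm_num)
    have hρv : T * ρ ^ 2 = v := by rw [hρ]; field_simp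
    have hρ6 : ρ ^ 6 + T⁻¹ * ρ ^ 2 + (- (T ^ 2)⁻¹) = 0 := by
      rw [← hρv] at hvT
      field_simp
      have h6 : T * (T ^ 2 * ρ ^ 6 + T * ρ ^ 2 - 1) = 0 := by linear_combination hvT
      rcases mul_eq_zero.mp h6 with h7 | h7
      · exact absurd h7 hT0
      · linear_combination h7
    have hρM : ρ ∈ next k 1 F :=
      mem_six hTF (inv_mem (self_mem T)) (neg_mem (inv_mem (pow_mem (self_mem T) 2))) hρ6
    refine ⟨e2 * ρ, mul_mem (F_le F h2) hρM, ?_⟩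
    rw [mul_pow, hρ, hv, hT]
    field_simp

theorem psum3_mem [CharZero K] {F : IntermediateField k K} {u1 u2 u3 : K} (he1 : u1 + u2 + u3 ∈ F)
    (he2 : u1 * u2 + u1 * u3 + u2 * u3 ∈ F) (he3 : u1 * u2 * u3 ∈ F) :
    ∀ j : ℕ, u1 ^ j + u2 ^ j + u3 ^ j ∈ F := by
  have key : ∀ j : ℕ, u1 ^ j + u2 ^ j + u3 ^ j ∈ F ∧ u1 ^ (j + 1) + u2 ^ (j + 1) + u3 ^ (j + 1) ∈ F ∧
      u1 ^ (j + 2) + u2 ^ (j + 2) + u3 ^ (j + 2) ∈ F := by
    intro j
    induction j with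
    | zero =>
      refine ⟨?_, ?_, ?_⟩
      · have : u1 ^ 0 + u2 ^ 0 + u3 ^ 0 = (3 : K) := by norm_num
        rw [this]; exact ofNat_mem F 3
      · simpa using he1
      · have : u1 ^ (0 + 2) + u2 ^ (0 + 2) + u3 ^ (0 + 2) =
            (u1 + u2 + u3) ^ 2 - 2 * (u1 * u2 + u1 * u3 + u2 * u3) := by ring
        rw [this]
        exact sub_mem (pow_mem he1 2) (mul_mem (ofNat_mem F 2) he2)
    | succ j ih =>
      obtain ⟨h1, h2, h3⟩ := ih
      refine ⟨h2, h3, ?_⟩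
      have : u1 ^ (j + 1 + 2) + u2 ^ (j + 1 + 2) + u3 ^ (j + 1 + 2) =
          (u1 + u2 + u3) * (u1 ^ (j + 2) + u2 ^ (j + 2) + u3 ^ (j + 2)) -
          (u1 * u2 + u1 * u3 + u2 * u3) * (u1 ^ (j + 1) + u2 ^ (j + 1) + u3 ^ (j + 1)) +
          (u1 * u2 * u3) * (u1 ^ j + u2 ^ j + u3 ^ j) := by ring
      rw [this]
      exact add_mem (sub_mem (mul_mem he1 h3) (mul_mem he2 h2)) (mul_mem he3 h1)
  exact fun j => (key j).1

theorem core3 [IsAlgClosed K] [CharZero K] {F : IntermediateField k K} {u1 u2 u3 c : K}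
    (h12 : u1 ≠ u2) (h13 : u1 ≠ u3) (h23 : u2 ≠ u3) (he1 : u1 + u2 + u3 ∈ F)
    (he2 : u1 * u2 + u1 * u3 + u2 * u3 ∈ F) (hc : c ∈ F) (hc0 : c ≠ 0)
    (he3 : u1 * u2 * u3 = c ^ 2)
    (htr : ∀ A ∈ F, ∀ B ∈ F, ∀ C ∈ F,
      (A + B * u1 + C * u1 ^ 2 = 0 ∨ A + B * u2 + C * u2 ^ 2 = 0 ∨ A + B * u3 + C * u3 ^ 2 = 0) →
      A + B * u1 + C * u1 ^ 2 = 0 ∧ A + B * u2 + C * u2 ^ 2 = 0 ∧ A + B * u3 + C * u3 ^ 2 = 0)
    {a : K} (ha : a ^ 2 = u1) : a ∈ next k 1 F := by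
  have he3F : u1 * u2 * u3 ∈ F := by rw [he3]; exact pow_mem hc 2
  have hS := psum3_mem he1 he2 he3F
  obtain ⟨S1, hS1⟩ : ∃ e, e = u1 ^ 1 + u2 ^ 1 + u3 ^ 1 := ⟨_, rfl⟩
  obtain ⟨S2, hS2⟩ : ∃ e, e = u1 ^ 2 + u2 ^ 2 + u3 ^ 2 := ⟨_, rfl⟩
  obtain ⟨S3, hS3⟩ : ∃ e, e = u1 ^ 3 + u2 ^ 3 + u3 ^ 3 := ⟨_, rfl⟩
  have hF1 : S1 ∈ F := hS1 ▸ hS 1
  have hF2 : S2 ∈ F := hS2 ▸ hS 2
  have hF3 : S3 ∈ F := hS3 ▸ hS 3
  have n3 : (3 : K) ∈ F := ofNat_mem F 3
  have n2 : (2 : K) ∈ F := ofNat_mem F 2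
  obtain ⟨A, hA, B, hB, C, hC, hnz, hl1, hl2⟩ : ∃ A ∈ F, ∃ B ∈ F, ∃ C ∈ F,
      ¬ (A = 0 ∧ B = 0 ∧ C = 0) ∧ 3 * A + S1 * B + S2 * C = 0 ∧ S1 * A + S2 * B + S3 * C = 0 := by
    by_cases hdeg : S1 * S3 - S2 ^ 2 = 0 ∧ S2 * S1 - 3 * S3 = 0 ∧ 3 * S2 - S1 ^ 2 = 0
    · refine ⟨S1, hF1, -3, neg_mem n3, 0, zero_mem _, ?_, ?_, ?_⟩
      · rintro ⟨_, h, _⟩
        exact absurd h (by norm_num)
      · ring
      · linear_combination - hdeg.2.2
    · refine ⟨S1 * S3 - S2 ^ 2, sub_mem (mul_mem hF1 hF3) (pow_mem hF2 2), S2 * S1 - 3 * S3,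
        sub_mem (mul_mem hF2 hF1) (mul_mem n3 hF3), 3 * S2 - S1 ^ 2,
        sub_mem (mul_mem n3 hF2) (pow_mem hF1 2), hdeg, ?_, ?_⟩ <;> ring
  obtain ⟨v1, hv1⟩ : ∃ v, v = A + B * u1 + C * u1 ^ 2 := ⟨_, rfl⟩
  obtain ⟨v2, hv2⟩ : ∃ v, v = A + B * u2 + C * u2 ^ 2 := ⟨_, rfl⟩
  obtain ⟨v3, hv3⟩ : ∃ v, v = A + B * u3 + C * u3 ^ 2 := ⟨_, rfl⟩
  have hall : ¬ (v1 = 0 ∨ v2 = 0 ∨ v3 = 0) := by
    intro h
    rw [hv1, hv2, hv3] at h
    obtain ⟨k1, k2, k3⟩ := htr A hA B hB C hC h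
    have m1 : (u1 - u2) * (B + C * (u1 + u2)) = 0 := by linear_combination k1 - k2
    have m2 : (u1 - u3) * (B + C * (u1 + u3)) = 0 := by linear_combination k1 - k3
    have m1' := (mul_eq_zero.mp m1).resolve_left (sub_ne_zero.mpr h12)
    have m2' := (mul_eq_zero.mp m2).resolve_left (sub_ne_zero.mpr h13)
    have m3 : (u2 - u3) * C = 0 := by linear_combination m1' - m2'
    have hC0 := (mul_eq_zero.mp m3).resolve_left (sub_ne_zero.mpr h23)
    have hB0 : B = 0 := by rw [hC0] at m1'; linear_combination m1'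
    have hA0 : A = 0 := by rw [hC0, hB0] at k1; linear_combination k1
    exact hnz ⟨hA0, hB0, hC0⟩
  have hv10 : v1 ≠ 0 := fun h => hall (Or.inl h)
  have hv20 : v2 ≠ 0 := fun h => hall (Or.inr (Or.inl h))
  have hv30 : v3 ≠ 0 := fun h => hall (Or.inr (Or.inr h))
  have hsum : v1 + v2 + v3 = 0 := by
    rw [hv1, hv2, hv3]
    rw [hS1, hS2] at hl1
    linear_combination hl1
  have hsumu : u1 * v1 + u2 * v2 + u3 * v3 = 0 := by
    rw [hv1, hv2, hv3]
    rw [hS1, hS2, hS3] at hl2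
    linear_combination hl2
  -- power sums of the `v` and the `u v`
  have q2 : v1 ^ 2 + v2 ^ 2 + v3 ^ 2 ∈ F := by
    have e : v1 ^ 2 + v2 ^ 2 + v3 ^ 2 = A ^ 2 * (u1 ^ 0 + u2 ^ 0 + u3 ^ 0) +
        2 * A * B * (u1 ^ 1 + u2 ^ 1 + u3 ^ 1) + (B ^ 2 + 2 * A * C) * (u1 ^ 2 + u2 ^ 2 + u3 ^ 2) +
        2 * B * C * (u1 ^ 3 + u2 ^ 3 + u3 ^ 3) + C ^ 2 * (u1 ^ 4 + u2 ^ 4 + u3 ^ 4) := by
      rw [hv1, hv2, hv3]; ring
    rw [e]
    have := hS 0; have := hS 1; have := hS 2; have := hS 3; have := hS 4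
    repeat' first
      | assumption
      | apply add_mem
      | apply mul_mem
      | apply pow_mem
  have q3 : v1 ^ 3 + v2 ^ 3 + v3 ^ 3 ∈ F := by
    have e : v1 ^ 3 + v2 ^ 3 + v3 ^ 3 = A ^ 3 * (u1 ^ 0 + u2 ^ 0 + u3 ^ 0) +
        3 * A ^ 2 * B * (u1 ^ 1 + u2 ^ 1 + u3 ^ 1) +
        (3 * A * B ^ 2 + 3 * A ^ 2 * C) * (u1 ^ 2 + u2 ^ 2 + u3 ^ 2) +
        (B ^ 3 + 2 * 3 * A * B * C) * (u1 ^ 3 + u2 ^ 3 + u3 ^ 3) +
        (3 * B ^ 2 * C + 3 * A * C ^ 2) * (u1 ^ 4 + u2 ^ 4 + u3 ^ 4) +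
        3 * B * C ^ 2 * (u1 ^ 5 + u2 ^ 5 + u3 ^ 5) + C ^ 3 * (u1 ^ 6 + u2 ^ 6 + u3 ^ 6) := by
      rw [hv1, hv2, hv3]; ring
    rw [e]
    have := hS 0; have := hS 1; have := hS 2; have := hS 3; have := hS 4
    have := hS 5; have := hS 6
    repeat' first
      | assumption
      | apply add_mem
      | apply mul_mem
      | apply pow_mem
  have q2u : (u1 * v1) ^ 2 + (u2 * v2) ^ 2 + (u3 * v3) ^ 2 ∈ F := by
    have e : (u1 * v1) ^ 2 + (u2 * v2) ^ 2 + (u3 * v3) ^ 2 = A ^ 2 * (u1 ^ 2 + u2 ^ 2 + u3 ^ 2) +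
        2 * A * B * (u1 ^ 3 + u2 ^ 3 + u3 ^ 3) + (B ^ 2 + 2 * A * C) * (u1 ^ 4 + u2 ^ 4 + u3 ^ 4) +
        2 * B * C * (u1 ^ 5 + u2 ^ 5 + u3 ^ 5) + C ^ 2 * (u1 ^ 6 + u2 ^ 6 + u3 ^ 6) := by
      rw [hv1, hv2, hv3]; ring
    rw [e]
    have := hS 2; have := hS 3; have := hS 4; have := hS 5; have := hS 6
    repeat' first
      | assumption
      | apply add_mem
      | apply mul_mem
      | apply pow_mem
  have e2v : v1 * v2 + v1 * v3 + v2 * v3 ∈ F := by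
    have e : v1 * v2 + v1 * v3 + v2 * v3 = - (v1 ^ 2 + v2 ^ 2 + v3 ^ 2) / 2 := by
      field_simp
      linear_combination (v1 + v2 + v3) * hsum
    rw [e]
    exact div_mem (neg_mem q2) n2
  have e3v : v1 * v2 * v3 ∈ F := by
    have e : v1 * v2 * v3 = (v1 ^ 3 + v2 ^ 3 + v3 ^ 3) / 3 := by
      field_simp
      linear_combination (- (v1 ^ 2 + v2 ^ 2 + v3 ^ 2 - v1 * v2 - v1 * v3 - v2 * v3)) * hsum
    rw [e]
    exact div_mem q3 n3
  have e2u : (u1 * v1) * (u2 * v2) + (u1 * v1) * (u3 * v3) + (u2 * v2) * (u3 * v3) ∈ F := by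
    have e : (u1 * v1) * (u2 * v2) + (u1 * v1) * (u3 * v3) + (u2 * v2) * (u3 * v3) =
        - ((u1 * v1) ^ 2 + (u2 * v2) ^ 2 + (u3 * v3) ^ 2) / 2 := by
      field_simp
      linear_combination (u1 * v1 + u2 * v2 + u3 * v3) * hsumu
    rw [e]
    exact div_mem (neg_mem q2u) n2
  obtain ⟨N', hN'⟩ : ∃ e, e = v1 * v2 * v3 := ⟨_, rfl⟩
  have hNN : (u1 * v1) * (u2 * v2) * (u3 * v3) = c ^ 2 * N' := by
    rw [hN']
    linear_combination (v1 * v2 * v3) * he3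
  have hN'0 : N' ≠ 0 := by rw [hN']; exact mul_ne_zero (mul_ne_zero hv10 hv20) hv30
  have hN'F : N' ∈ F := hN' ▸ e3v
  obtain ⟨r, hr, hr2⟩ := sqrt_of_trace_zero (F := F) hsumu e2u
    (by rw [hNN]; exact mul_mem (pow_mem hc 2) hN'F)
    (by rw [hNN]; exact mul_ne_zero (pow_ne_zero _ hc0) hN'0)
  obtain ⟨r', hr', hr'2⟩ := sqrt_of_trace_zero (F := F) hsum e2v e3v (by rw [← hN']; exact hN'0)
  rw [hNN] at hr2
  rw [← hN'] at hr'2
  have hu1 : u1 ∈ next k 1 F := by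
    refine mem_cubic (F := F) (a := - (u1 + u2 + u3)) (b := u1 * u2 + u1 * u3 + u2 * u3)
      (c := - (u1 * u2 * u3)) (neg_mem he1) he2 (neg_mem he3F) ?_
    ring
  have hv1M : v1 ∈ next k 1 F := by
    rw [hv1]
    exact add_mem (add_mem (F_le F hA) (mul_mem (F_le F hB) hu1))
      (mul_mem (F_le F hC) (pow_mem hu1 2))
  have hsq : (a * (v1 * c * N')) ^ 2 = (r * r') ^ 2 := by
    rw [mul_pow r r', hr2, hr'2, mul_pow a, ha]
    ring
  have hd : v1 * c * N' ≠ 0 := mul_ne_zero (mul_ne_zero hv10 hc0) hN'0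
  have hdM : v1 * c * N' ∈ next k 1 F :=
    mul_mem (mul_mem hv1M (F_le F hc)) (F_le F hN'F)
  rcases sq_eq_sq_iff_eq_or_eq_neg.mp hsq with h | h
  · have : a = r * r' / (v1 * c * N') := by rw [eq_div_iff hd, h]
    rw [this]
    exact div_mem (mul_mem hr hr') hdM
  · have : a = - (r * r') / (v1 * c * N') := by rw [eq_div_iff hd, h]
    rw [this]
    exact div_mem (neg_mem (mul_mem hr hr')) hdM

theorem psum_mem [IsAlgClosed K] [CharZero k] {F : IntermediateField k K} {n : ℕ}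
    {y : Fin n → K} (hG : Gen F y) {c : K} (hc : c ∈ F) (j : ℕ) : ∑ i, (y i - c) ^ j ∈ F := by
  refine mem_base_of_fixed hG.alg fun g => ?_
  obtain ⟨σ, hσ⟩ := hG.perm g
  rw [map_sum]
  have hgc : g c = c := g.commutes ⟨c, hc⟩
  simp only [map_pow, map_sub, hσ, hgc]
  exact Equiv.sum_comp σ (fun i => (y i - c) ^ j)

theorem gen_comp {F : IntermediateField k K} {n : ℕ} {y : Fin n → K} (hG : Gen F y)
    (σ : Equiv.Perm (Fin n)) : Gen F (y ∘ σ) where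
  alg := hG.alg
  ind := hG.ind.comp σ σ.injective
  le := by rw [σ.surjective.range_comp]; exact hG.le
  lift := fun τ => by
    obtain ⟨g, hg⟩ := hG.lift (σ * τ * σ⁻¹)
    refine ⟨g, fun i => ?_⟩
    show g (y (σ i)) = y (σ (τ i))
    rw [hg]
    simp
  perm := fun g => by
    obtain ⟨τ, hτ⟩ := hG.perm g
    refine ⟨σ⁻¹ * τ * σ, fun i => ?_⟩
    show g (y (σ i)) = y (σ ((σ⁻¹ * τ * σ) i))
    rw [hτ]
    simp

end SmallAux

open SmallAux

theorem small [IsAlgClosed K] [CharZero k] {F : IntermediateField k K} {n : ℕ}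
    {y : Fin n → K} (hG : Gen F y) (hn : n ≤ 4) (i₀ : Fin n) : y i₀ ∈ next k 1 F := by
  have hK : CharZero K := charZero_of_injective_algebraMap (algebraMap k K).injective
  -- reduction to the index `0`
  have hred : ∀ (m : ℕ), m ≤ 4 → ∀ (h0 : 0 < m) (y : Fin m → K), Gen F y →
      y ⟨0, h0⟩ ∈ next k 1 F := by
    intro m hm h0 y hG
    have hp : ∀ j : ℕ, ∑ i, (y i) ^ j ∈ F := by
      intro j
      have h := psum_mem hG (zero_mem F) j
      simpa using h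
    have n2 : (2 : K) ∈ F := ofNat_mem F 2
    have n3 : (3 : K) ∈ F := ofNat_mem F 3
    have n4 : (4 : K) ∈ F := ofNat_mem F 4
    have n6 : (6 : K) ∈ F := ofNat_mem F 6
    interval_cases m
    · show y 0 ∈ next k 1 F
      have h := hp 1
      simp at h
      exact F_le F h
    · show y 0 ∈ next k 1 F
      have h1 := hp 1
      have h2 := hp 2
      simp only [Fin.sum_univ_two] at h1 h2
      have hd : y 0 - y 1 ∈ next k 1 F := by
        refine mem_sqrt ?_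
        have e : (y 0 - y 1) ^ 2 = 2 * (y 0 ^ 2 + y 1 ^ 2) - (y 0 ^ 1 + y 1 ^ 1) ^ 2 := by ring
        rw [e]
        exact sub_mem (mul_mem n2 h2) (pow_mem h1 2)
      have e : y 0 = ((y 0 ^ 1 + y 1 ^ 1) + (y 0 - y 1)) / 2 := by field_simp; ring
      rw [e]
      exact div_mem (add_mem (F_le F h1) hd) (F_le F n2)
    · show y 0 ∈ next k 1 F
      have h1 := hp 1
      have h2 := hp 2
      have h3 := hp 3
      simp only [Fin.sum_univ_three] at h1 h2 h3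
      obtain ⟨p1, hp1⟩ : ∃ e, e = y 0 ^ 1 + y 1 ^ 1 + y 2 ^ 1 := ⟨_, rfl⟩
      obtain ⟨p2, hp2⟩ : ∃ e, e = y 0 ^ 2 + y 1 ^ 2 + y 2 ^ 2 := ⟨_, rfl⟩
      obtain ⟨p3, hp3⟩ : ∃ e, e = y 0 ^ 3 + y 1 ^ 3 + y 2 ^ 3 := ⟨_, rfl⟩
      rw [← hp1] at h1
      rw [← hp2] at h2
      rw [← hp3] at h3
      refine mem_cubic (F := F) (a := - p1) (b := (p1 ^ 2 - p2) / 2)
        (c := - ((p1 ^ 3 - 3 * p1 * p2 + 2 * p3) / 6)) (neg_mem h1)
        (div_mem (sub_mem (pow_mem h1 2) h2) n2)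
        (neg_mem (div_mem (add_mem (sub_mem (pow_mem h1 3) (mul_mem (mul_mem n3 h1) h2))
          (mul_mem n2 h3)) n6)) ?_
      rw [hp1, hp2, hp3]
      field_simp
      ring
    · show y 0 ∈ next k 1 F
      have hs := hp 1
      simp only [Fin.sum_univ_four, pow_one] at hs
      obtain ⟨s, hsd⟩ : ∃ e, e = y 0 + y 1 + y 2 + y 3 := ⟨_, rfl⟩
      rw [← hsd] at hs
      have hP := fun j => psum_mem hG (div_mem hs n4) j
      have hP2 := hP 2
      have hP3 := hP 3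
      have hP4 := hP 4
      simp only [Fin.sum_univ_four] at hP2 hP3 hP4
      obtain ⟨P2, hP2d⟩ : ∃ e, e = (y 0 - s / 4) ^ 2 + (y 1 - s / 4) ^ 2 + (y 2 - s / 4) ^ 2 +
        (y 3 - s / 4) ^ 2 := ⟨_, rfl⟩
      obtain ⟨P3, hP3d⟩ : ∃ e, e = (y 0 - s / 4) ^ 3 + (y 1 - s / 4) ^ 3 + (y 2 - s / 4) ^ 3 +
        (y 3 - s / 4) ^ 3 := ⟨_, rfl⟩
      obtain ⟨P4, hP4d⟩ : ∃ e, e = (y 0 - s / 4) ^ 4 + (y 1 - s / 4) ^ 4 + (y 2 - s / 4) ^ 4 +
        (y 3 - s / 4) ^ 4 := ⟨_, rfl⟩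
      rw [← hP2d] at hP2
      rw [← hP3d] at hP3
      rw [← hP4d] at hP4
      obtain ⟨a1, ha1⟩ : ∃ e, e = (y 0 + y 1 - y 2 - y 3) / 2 := ⟨_, rfl⟩
      obtain ⟨a2, ha2⟩ : ∃ e, e = (y 0 + y 2 - y 1 - y 3) / 2 := ⟨_, rfl⟩
      obtain ⟨a3, ha3⟩ : ∃ e, e = (y 0 + y 3 - y 1 - y 2) / 2 := ⟨_, rfl⟩
      have hE1 : a1 ^ 2 + a2 ^ 2 + a3 ^ 2 = P2 := by
        rw [ha1, ha2, ha3, hP2d, hsd]; field_simp; ring
      have hE2 : a1 ^ 2 * a2 ^ 2 + a1 ^ 2 * a3 ^ 2 + a2 ^ 2 * a3 ^ 2 = P4 - P2 ^ 2 / 4 := by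
        rw [ha1, ha2, ha3, hP2d, hP4d, hsd]; field_simp; ring
      have hE3 : a1 * a2 * a3 = P3 / 3 := by
        rw [ha1, ha2, ha3, hP3d, hsd]; field_simp; ring
      have hE1F : a1 ^ 2 + a2 ^ 2 + a3 ^ 2 ∈ F := hE1 ▸ hP2
      have hE2F : a1 ^ 2 * a2 ^ 2 + a1 ^ 2 * a3 ^ 2 + a2 ^ 2 * a3 ^ 2 ∈ F := by
        rw [hE2]; exact sub_mem hP4 (div_mem (pow_mem hP2 2) n4)
      have hcF : a1 * a2 * a3 ∈ F := by rw [hE3]; exact div_mem hP3 n3
      have hyinj := hG.ind.injective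
      have hne : ∀ i j : Fin 4, i ≠ j → y i - y j ≠ 0 := fun i j hij h =>
        hij (hyinj (sub_eq_zero.mp h))
      have d12 : a1 ^ 2 ≠ a2 ^ 2 := by
        intro h
        have e : (y 1 - y 2) * (y 0 - y 3) = 0 := by
          rw [ha1, ha2] at h
          linear_combination h
        rcases mul_eq_zero.mp e with h' | h'
        · exact hne 1 2 (by decide) h'
        · exact hne 0 3 (by decide) h'
      have d13 : a1 ^ 2 ≠ a3 ^ 2 := by
        intro h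
        have e : (y 1 - y 3) * (y 0 - y 2) = 0 := by
          rw [ha1, ha3] at h
          linear_combination h
        rcases mul_eq_zero.mp e with h' | h'
        · exact hne 1 3 (by decide) h'
        · exact hne 0 2 (by decide) h'
      have d23 : a2 ^ 2 ≠ a3 ^ 2 := by
        intro h
        have e : (y 2 - y 3) * (y 0 - y 1) = 0 := by
          rw [ha2, ha3] at h
          linear_combination h
        rcases mul_eq_zero.mp e with h' | h'
        · exact hne 2 3 (by decide) h'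
        · exact hne 0 1 (by decide) h'
      -- two automorphisms
      obtain ⟨g, hg⟩ := hG.lift (Equiv.swap 1 2)
      obtain ⟨g', hg'⟩ := hG.lift (Equiv.swap 2 3)
      have g0 : g (y 0) = y 0 := by rw [hg]; rfl
      have g1 : g (y 1) = y 2 := by rw [hg]; rfl
      have g2 : g (y 2) = y 1 := by rw [hg]; rfl
      have g3 : g (y 3) = y 3 := by rw [hg]; rfl
      have g0' : g' (y 0) = y 0 := by rw [hg']; rfl
      have g1' : g' (y 1) = y 1 := by rw [hg']; rfl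
      have g2' : g' (y 2) = y 3 := by rw [hg']; rfl
      have g3' : g' (y 3) = y 2 := by rw [hg']; rfl
      have gn : ∀ g : K ≃ₐ[F] K, g 2 = 2 := fun g => map_ofNat g 2
      have ga1 : g a1 = a2 := by
        rw [ha1, ha2, map_div₀, map_sub, map_sub, map_add, g0, g1, g2, g3, gn]
      have ga2 : g a2 = a1 := by
        rw [ha1, ha2, map_div₀, map_sub, map_sub, map_add, g0, g1, g2, g3, gn]
      have ga2' : g' a2 = a3 := by
        rw [ha2, ha3, map_div₀, map_sub, map_sub, map_add, g0', g1', g2', g3', gn]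
      have ga3' : g' a3 = a2 := by
        rw [ha2, ha3, map_div₀, map_sub, map_sub, map_add, g0', g1', g2', g3', gn]
      have gF : ∀ g : K ≃ₐ[F] K, ∀ c ∈ F, g c = c := fun g c hc => g.commutes ⟨c, hc⟩
      have tr : ∀ A ∈ F, ∀ B ∈ F, ∀ C ∈ F,
          (A + B * a1 ^ 2 + C * (a1 ^ 2) ^ 2 = 0 ↔ A + B * a2 ^ 2 + C * (a2 ^ 2) ^ 2 = 0) ∧
          (A + B * a2 ^ 2 + C * (a2 ^ 2) ^ 2 = 0 ↔ A + B * a3 ^ 2 + C * (a3 ^ 2) ^ 2 = 0) := by
        intro A hA B hB C hC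
        refine ⟨⟨fun h => ?_, fun h => ?_⟩, ⟨fun h => ?_, fun h => ?_⟩⟩
        · have := congrArg g h
          simpa only [map_add, map_mul, map_pow, map_zero, gF g _ hA, gF g _ hB, gF g _ hC,
            ga1] using this
        · have := congrArg g h
          simpa only [map_add, map_mul, map_pow, map_zero, gF g _ hA, gF g _ hB, gF g _ hC,
            ga2] using this
        · have := congrArg g' h
          simpa only [map_add, map_mul, map_pow, map_zero, gF g' _ hA, gF g' _ hB, gF g' _ hC,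
            ga2'] using this
        · have := congrArg g' h
          simpa only [map_add, map_mul, map_pow, map_zero, gF g' _ hA, gF g' _ hB, gF g' _ hC,
            ga3'] using this
      have hc0 : a1 * a2 * a3 ≠ 0 := by
        intro h
        have t1 : a1 = 0 → a2 = 0 := fun h => by rw [← ga1, h, map_zero]
        have t2 : a2 = 0 → a1 = 0 := fun h => by rw [← ga2, h, map_zero]
        have t3 : a3 = 0 → a2 = 0 := fun h => by rw [← ga3', h, map_zero]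
        have t4 : a1 = 0 ∧ a2 = 0 := by
          rcases mul_eq_zero.mp h with h' | h'
          · rcases mul_eq_zero.mp h' with h'' | h''
            · exact ⟨h'', t1 h''⟩
            · exact ⟨t2 h'', h''⟩
          · exact ⟨t2 (t3 h'), t3 h'⟩
        exact d12 (by rw [t4.1, t4.2])
      have m1 : a1 ∈ next k 1 F := by
        refine core3 (F := F) (c := a1 * a2 * a3) d12 d13 d23 hE1F hE2F hcF hc0 (by ring) ?_ rfl
        intro A hA B hB C hC h
        obtain ⟨i1, i2⟩ := tr A hA B hB C hC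
        tauto
      have m2 : a2 ∈ next k 1 F := by
        refine core3 (F := F) (u2 := a1 ^ 2) (u3 := a3 ^ 2) (c := a1 * a2 * a3) d12.symm d23 d13
          (by convert hE1F using 1; ring) (by convert hE2F using 1; ring) hcF hc0 (by ring) ?_ rfl
        intro A hA B hB C hC h
        obtain ⟨i1, i2⟩ := tr A hA B hB C hC
        tauto
      have m3 : a3 ∈ next k 1 F := by
        refine core3 (F := F) (u2 := a1 ^ 2) (u3 := a2 ^ 2) (c := a1 * a2 * a3) d13.symm d23.symm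
          d12 (by convert hE1F using 1; ring) (by convert hE2F using 1; ring) hcF hc0 (by ring)
          ?_ rfl
        intro A hA B hB C hC h
        obtain ⟨i1, i2⟩ := tr A hA B hB C hC
        tauto
      have e : y 0 = s / 4 + (a1 + a2 + a3) / 2 := by
        rw [hsd, ha1, ha2, ha3]; field_simp; ring
      rw [e]
      exact add_mem (F_le F (div_mem hs n4)) (div_mem (add_mem (add_mem m1 m2) m3) (F_le F n2))
  have h0 : 0 < n := i₀.pos
  have h := hred n hn h0 (y ∘ Equiv.swap ⟨0, h0⟩ i₀) (gen_comp hG _)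
  simpa using h

end Pool.Agent.Helper85.SC
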