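import Pool.Agent.Helper85.SC.Defs

namespace Pool.Agent.Helper85.SC

open IntermediateField

section Val

variable {k : Type*} [Field k] {ι : Type*} [DecidableEq ι]

/-- The sign change of one variable. -/
private noncomputable def sg (i₀ : ι) : MvPolynomial ι k →ₐ[k] MvPolynomial ι k :=
  MvPolynomial.aeval (fun i => if i = i₀ then - MvPolynomial.X i else MvPolynomial.X i)

private lemma sg_monomial (i₀ : ι) (e : ι →₀ ℕ) (c : k) :
    sg i₀ (MvPolynomial.monomial e c) = MvPolynomial.monomial e ((-1) ^ (e i₀) * c) := by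
  unfold sg
  rw [MvPolynomial.aeval_monomial, MvPolynomial.monomial_eq (s := e), map_mul, mul_assoc,
    MvPolynomial.algebraMap_eq, mul_left_comm]
  congr 1
  rw [map_pow, map_neg, map_one]
  by_cases h : i₀ ∈ e.support
  · unfold Finsupp.prod
    rw [← Finset.mul_prod_erase _ _ h, ← Finset.mul_prod_erase _ _ h]
    beta_reduce
    rw [if_pos rfl, ← mul_assoc, ← mul_pow, neg_one_mul]
    congr 1
    refine Finset.prod_congr rfl fun i hi => ?_
    rw [if_neg (Finset.ne_of_mem_erase hi)]
  · have h0 : e i₀ = 0 := Finsupp.notMem_support_iff.mp h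
    rw [h0, pow_zero, one_mul]
    unfold Finsupp.prod
    refine Finset.prod_congr rfl fun i hi => ?_
    have h' : i ≠ i₀ := fun h' => h (by rwa [h'] at hi)
    beta_reduce
    rw [if_neg h']

private lemma coeff_sg (i₀ : ι) (p : MvPolynomial ι k) (d : ι →₀ ℕ) :
    (sg i₀ p).coeff d = (-1) ^ (d i₀) * p.coeff d := by
  induction p using MvPolynomial.induction_on' with
  | monomial e c =>
    rw [sg_monomial, MvPolynomial.coeff_monomial, MvPolynomial.coeff_monomial]
    split_ifs with h
    · rw [h]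
    · rw [mul_zero]
  | add p q hp hq => rw [map_add, MvPolynomial.coeff_add, hp, hq, MvPolynomial.coeff_add, mul_add]

private lemma support_sg (i₀ : ι) (p : MvPolynomial ι k) : (sg i₀ p).support = p.support := by
  ext d
  rw [MvPolynomial.mem_support_iff, MvPolynomial.mem_support_iff, coeff_sg]
  have : ((-1 : k)) ^ (d i₀) ≠ 0 := pow_ne_zero _ (neg_ne_zero.mpr one_ne_zero)
  simp [this]

private lemma degree_sg (m : MonomialOrder ι) (i₀ : ι) (p : MvPolynomial ι k) :
    m.degree (sg i₀ p) = m.degree p := by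
  unfold MonomialOrder.degree
  rw [support_sg]

private lemma lc_sg (m : MonomialOrder ι) (i₀ : ι) (p : MvPolynomial ι k) :
    m.leadingCoeff (sg i₀ p) = (-1) ^ (m.degree p i₀) * m.leadingCoeff p := by
  unfold MonomialOrder.leadingCoeff
  rw [coeff_sg, degree_sg]

private lemma aeval_sg {K : Type*} [Field K] [Algebra k K] (z : ι → K) (i₀ : ι)
    (τ : K ≃ₐ[k] K) (h1 : τ (z i₀) = - z i₀) (h2 : ∀ i, i ≠ i₀ → τ (z i) = z i)
    (p : MvPolynomial ι k) :
    MvPolynomial.aeval z (sg i₀ p) = τ (MvPolynomial.aeval z p) := by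
  have : (MvPolynomial.aeval z).comp (sg i₀) = (τ : K →ₐ[k] K).comp (MvPolynomial.aeval z) := by
    apply MvPolynomial.algHom_ext
    intro i
    simp only [AlgHom.comp_apply, sg, MvPolynomial.aeval_X]
    split_ifs with h
    · subst h
      simp [h1]
    · simp [h2 i h]
  exact DFunLike.congr_fun this p

private lemma neg_one_pow_cast [CharZero k] {a b : ℕ} {ε : ℤ}
    (h : ((-1 : k)) ^ a = (ε : k) * (-1) ^ b) : (-1 : ℤ) ^ a = ε * (-1) ^ b := by
  have : (((-1 : ℤ) ^ a : ℤ) : k) = ((ε * (-1) ^ b : ℤ) : k) := by push_cast; exact h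
  exact_mod_cast this

end Val

/-- Elements of `k(z)` which are multiplied by signs under the sign changes of some of the
independent elements `z i`, with the sign pattern of the identity matrix, are algebraically
independent. -/
theorem algInd_of_signs {k K : Type*} [Field k] [CharZero k] [Field K] [Algebra k K]
    {ι : Type*} [Fintype ι] [LinearOrder ι] (z : ι → K) (hz : AlgebraicIndependent k z)
    {m : ℕ} (j : Fin m → ι) (c : Fin m → K)
    (hc0 : ∀ a, c a ≠ 0) (hc : ∀ a, c a ∈ adjoin k (Set.range z))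
    (σ : Fin m → (K ≃ₐ[k] K)) (hσ1 : ∀ a, σ a (z (j a)) = - z (j a))
    (hσ2 : ∀ a i, i ≠ j a → σ a (z i) = z i)
    (hs1 : ∀ a, σ a (c a) = - c a) (hs2 : ∀ a b, a ≠ b → σ a (c b) = c b) :
    AlgebraicIndependent k c := by
  classical
  have hinj : Function.Injective (MvPolynomial.aeval z : MvPolynomial ι k →ₐ[k] K) := hz
  have hex : ∀ b, ∃ p q : MvPolynomial ι k,
      c b = MvPolynomial.aeval z p / MvPolynomial.aeval z q := fun b =>
    (IntermediateField.mem_adjoin_range_iff k z (c b)).1 (hc b)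
  choose p q hpq using hex
  have hpz : ∀ b, MvPolynomial.aeval z (p b) ≠ 0 := fun b h => hc0 b (by rw [hpq, h, zero_div])
  have hqz : ∀ b, MvPolynomial.aeval z (q b) ≠ 0 := fun b h => hc0 b (by rw [hpq, h, div_zero])
  have hp0 : ∀ b, p b ≠ 0 := fun b h => hpz b (by rw [h, map_zero])
  have hq0 : ∀ b, q b ≠ 0 := fun b h => hqz b (by rw [h, map_zero])
  obtain ⟨M, -⟩ : ∃ M : MonomialOrder ι, True := ⟨MonomialOrder.lex, trivial⟩
  -- the sign relation for the degrees
  have hsign : ∀ a b, (-1 : ℤ) ^ (M.degree (p b) (j a)) =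
      (if a = b then -1 else 1) * (-1) ^ (M.degree (q b) (j a)) := by
    intro a b
    have h1 : σ a (c b) = ((if a = b then -1 else 1 : ℤ) : K) * c b := by
      split_ifs with h
      · subst h; rw [hs1]; push_cast; ring
      · rw [hs2 a b h]; push_cast; ring
    have hp' : MvPolynomial.aeval z (sg (j a) (p b)) = σ a (MvPolynomial.aeval z (p b)) :=
      aeval_sg z (j a) (σ a) (hσ1 a) (hσ2 a) (p b)
    have hq' : MvPolynomial.aeval z (sg (j a) (q b)) = σ a (MvPolynomial.aeval z (q b)) :=
      aeval_sg z (j a) (σ a) (hσ1 a) (hσ2 a) (q b)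
    have hσq : σ a (MvPolynomial.aeval z (q b)) ≠ 0 := by
      intro h
      exact hqz b ((map_eq_zero_iff _ (σ a).injective).1 h)
    have h2 : σ a (MvPolynomial.aeval z (p b)) * MvPolynomial.aeval z (q b) =
        ((if a = b then -1 else 1 : ℤ) : K) *
          (MvPolynomial.aeval z (p b) * σ a (MvPolynomial.aeval z (q b))) := by
      rw [hpq b, map_div₀, div_eq_iff hσq] at h1
      rw [h1]
      field_simp [hqz b]
    have h3 : sg (j a) (p b) * q b =
        MvPolynomial.C (((if a = b then -1 else 1 : ℤ) : k)) * (p b * sg (j a) (q b)) := by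
      apply hinj
      rw [map_mul, map_mul, map_mul, hp', hq', h2, MvPolynomial.aeval_C, map_intCast]
    have h4 := congrArg M.leadingCoeff h3
    rw [MonomialOrder.leadingCoeff_mul, MonomialOrder.leadingCoeff_mul,
      MonomialOrder.leadingCoeff_mul, lc_sg, lc_sg, MonomialOrder.leadingCoeff_C] at h4
    have h5 : M.leadingCoeff (p b) ≠ 0 := MonomialOrder.leadingCoeff_ne_zero_iff.2 (hp0 b)
    have h6 : M.leadingCoeff (q b) ≠ 0 := MonomialOrder.leadingCoeff_ne_zero_iff.2 (hq0 b)
    have h7 : ((-1 : k)) ^ (M.degree (p b) (j a)) =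
        ((if a = b then -1 else 1 : ℤ) : k) * (-1) ^ (M.degree (q b) (j a)) := by
      apply mul_right_cancel₀ (mul_ne_zero h5 h6)
      linear_combination h4
    exact neg_one_pow_cast h7
  -- the integer matrix
  obtain ⟨D, hD⟩ : ∃ D : Matrix (Fin m) (Fin m) ℤ, D = fun a b =>
      ((M.degree (p b) (j a) : ℕ) : ℤ) - ((M.degree (q b) (j a) : ℕ) : ℤ) := ⟨_, rfl⟩
  have hDodd : ∀ a b, ((D a b : ℤ) : ZMod 2) = if a = b then 1 else 0 := by
    intro a b
    have h := hsign a b
    have hDab : D a b = ((M.degree (p b) (j a) : ℕ) : ℤ) - ((M.degree (q b) (j a) : ℕ) : ℤ) := by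
      rw [hD]
    rw [hDab]
    split_ifs with hab
    · rw [if_pos hab] at h
      rcases Nat.even_or_odd (M.degree (p b) (j a)) with h1 | h1
      · rcases Nat.even_or_odd (M.degree (q b) (j a)) with h2 | h2
        · rw [h1.neg_one_pow, h2.neg_one_pow] at h; norm_num at h
        · push_cast
          rw [(ZMod.natCast_eq_zero_iff_even).2 h1, (ZMod.natCast_eq_one_iff_odd).2 h2]
          decide
      · rcases Nat.even_or_odd (M.degree (q b) (j a)) with h2 | h2
        · push_cast
          rw [(ZMod.natCast_eq_zero_iff_even).2 h2, (ZMod.natCast_eq_one_iff_odd).2 h1]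
          decide
        · rw [h1.neg_one_pow, h2.neg_one_pow] at h; norm_num at h
    · rw [if_neg hab] at h
      rcases Nat.even_or_odd (M.degree (p b) (j a)) with h1 | h1
      · rcases Nat.even_or_odd (M.degree (q b) (j a)) with h2 | h2
        · push_cast
          rw [(ZMod.natCast_eq_zero_iff_even).2 h1, (ZMod.natCast_eq_zero_iff_even).2 h2]
          decide
        · rw [h1.neg_one_pow, h2.neg_one_pow] at h; norm_num at h
      · rcases Nat.even_or_odd (M.degree (q b) (j a)) with h2 | h2
        · rw [h1.neg_one_pow, h2.neg_one_pow] at h; norm_num at h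
        · push_cast
          rw [(ZMod.natCast_eq_one_iff_odd).2 h1, (ZMod.natCast_eq_one_iff_odd).2 h2]
          decide
  have hdet : D.det ≠ 0 := by
    intro h
    have h1 : (Int.castRingHom (ZMod 2)) D.det = 0 := by rw [h, map_zero]
    rw [RingHom.map_det] at h1
    have h2 : (Int.castRingHom (ZMod 2)).mapMatrix D = 1 := by
      ext a b
      rw [Matrix.one_apply]
      exact hDodd a b
    rw [h2, Matrix.det_one] at h1
    exact one_ne_zero h1
  -- the proof of independence
  rw [AlgebraicIndependent, injective_iff_map_eq_zero]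
  intro P hP
  by_contra hP0
  obtain ⟨N, hN⟩ : ∃ N : ℕ, ∀ e ∈ P.support, ∀ b, e b ≤ N := by
    refine ⟨P.support.sup (fun e => Finset.univ.sup (fun b => e b)), fun e he b => ?_⟩
    exact le_trans (Finset.le_sup (f := fun b => e b) (Finset.mem_univ b))
      (Finset.le_sup (f := fun e : Fin m →₀ ℕ => Finset.univ.sup (fun b => e b)) he)
  obtain ⟨T, hT⟩ : ∃ T : (Fin m →₀ ℕ) → MvPolynomial ι k,
      T = fun e => ∏ b, (p b ^ (e b) * q b ^ (N - e b)) := ⟨_, rfl⟩
  have hT0 : ∀ e, T e ≠ 0 := fun e => by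
    rw [hT]
    exact Finset.prod_ne_zero_iff.2 fun b _ =>
      mul_ne_zero (pow_ne_zero _ (hp0 b)) (pow_ne_zero _ (hq0 b))
  have hTdeg : ∀ e, M.degree (T e) =
      ∑ b, (e b • M.degree (p b) + (N - e b) • M.degree (q b)) := fun e => by
    rw [hT]
    rw [MonomialOrder.degree_prod (fun b _ =>
      mul_ne_zero (pow_ne_zero _ (hp0 b)) (pow_ne_zero _ (hq0 b)))]
    refine Finset.sum_congr rfl fun b _ => ?_
    rw [MonomialOrder.degree_mul (pow_ne_zero _ (hp0 b)) (pow_ne_zero _ (hq0 b)),
      MonomialOrder.degree_pow, MonomialOrder.degree_pow]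
  have hTinj : ∀ e ∈ P.support, ∀ e' ∈ P.support, M.degree (T e) = M.degree (T e') → e = e' := by
    intro e he e' he' h
    rw [hTdeg, hTdeg] at h
    have h1 : D.mulVec (fun b => (e b : ℤ) - (e' b : ℤ)) = 0 := by
      funext a
      have h2 := DFunLike.congr_fun h (j a)
      rw [Finsupp.finsetSum_apply, Finsupp.finsetSum_apply] at h2
      have h3 : ((∑ b, (e b • M.degree (p b) + (N - e b) • M.degree (q b)) (j a) : ℕ) : ℤ) =
          ((∑ b, (e' b • M.degree (p b) + (N - e' b) • M.degree (q b)) (j a) : ℕ) : ℤ) := by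
        rw [h2]
      rw [Nat.cast_sum, Nat.cast_sum, ← sub_eq_zero, ← Finset.sum_sub_distrib] at h3
      rw [Pi.zero_apply, ← h3]
      unfold Matrix.mulVec dotProduct
      refine Finset.sum_congr rfl fun b _ => ?_
      have h4 := hN e he b
      have h5 := hN e' he' b
      simp only [Finsupp.add_apply, Finsupp.smul_apply, smul_eq_mul, Nat.cast_add, Nat.cast_mul,
        Nat.cast_sub h4, Nat.cast_sub h5, hD]
      ring
    have h6 := Matrix.eq_zero_of_mulVec_eq_zero hdet h1
    ext b
    have h7 := congrFun h6 b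
    simp only [Pi.zero_apply] at h7
    omega
  obtain ⟨Q, hQ⟩ : ∃ Q : MvPolynomial ι k,
      Q = ∑ e ∈ P.support, MvPolynomial.C (P.coeff e) * T e := ⟨_, rfl⟩
  have hQ0 : Q = 0 := by
    apply hinj
    rw [map_zero, hQ, map_sum]
    have h1 : ∀ e ∈ P.support, MvPolynomial.aeval z (MvPolynomial.C (P.coeff e) * T e) =
        (∏ b, MvPolynomial.aeval z (q b) ^ N) *
          (algebraMap k K (P.coeff e) * ∏ b, c b ^ (e b)) := by
      intro e he
      rw [map_mul, MvPolynomial.aeval_C, hT, map_prod, mul_left_comm, ← Finset.prod_mul_distrib]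
      congr 1
      refine Finset.prod_congr rfl fun b _ => ?_
      rw [map_mul, map_pow, map_pow, hpq b, div_pow]
      have h2 : MvPolynomial.aeval z (q b) ^ N =
          MvPolynomial.aeval z (q b) ^ (N - e b) * MvPolynomial.aeval z (q b) ^ (e b) := by
        rw [← pow_add, Nat.sub_add_cancel (hN e he b)]
      rw [h2]
      have h3 : MvPolynomial.aeval z (q b) ^ (e b) ≠ 0 := pow_ne_zero _ (hqz b)
      field_simp
    rw [Finset.sum_congr rfl h1, ← Finset.mul_sum]
    have h2 : ∑ e ∈ P.support, algebraMap k K (P.coeff e) * ∏ b, c b ^ (e b) =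
        MvPolynomial.aeval c P := by
      rw [MvPolynomial.aeval_def, MvPolynomial.eval₂_eq']
    rw [h2, hP, mul_zero]
  have hPs : P.support.Nonempty := MvPolynomial.support_nonempty.2 hP0
  obtain ⟨e₀, he₀, hmax⟩ := Finset.exists_max_image P.support
    (fun e => M.toSyn (M.degree (T e))) hPs
  have h1 : Q.coeff (M.degree (T e₀)) = P.coeff e₀ * M.leadingCoeff (T e₀) := by
    rw [hQ, MvPolynomial.coeff_sum, Finset.sum_eq_single e₀]
    · rw [MvPolynomial.coeff_C_mul]
      rfl
    · intro e he hne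
      rw [MvPolynomial.coeff_C_mul]
      have h2 : (T e).coeff (M.degree (T e₀)) = 0 := by
        apply MonomialOrder.coeff_eq_zero_of_lt (m := M)
        refine lt_of_le_of_ne (hmax e he) fun h3 => hne ?_
        exact hTinj e he e₀ he₀ (M.toSyn.injective h3)
      rw [h2, mul_zero]
    · intro h; exact absurd he₀ h
  rw [hQ0, MvPolynomial.coeff_zero] at h1
  exact mul_ne_zero (MvPolynomial.mem_support_iff.1 he₀)
    (MonomialOrder.leadingCoeff_ne_zero_iff.2 (hT0 e₀)) h1.symm

end Pool.Agent.Helper85.SC
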