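import Pool.Agent.Helper85.SC.Desc
import Pool.Agent.Helper85.SC.Grp
import Pool.Agent.Helper85.SC.Val

namespace Pool.Agent.Helper85.SC

open IntermediateField

variable {k : Type*} {K : Type*} [Field k] [Field K] [Algebra k K]

theorem not_mem_base {F : IntermediateField k K} {n : ℕ}
    {y : Fin n → K} (hG : Gen F y) (hn : 2 ≤ n) (i₀ : Fin n) : y i₀ ∉ F := by
  intro h
  have : Nontrivial (Fin n) := Fin.nontrivial_iff_two_le.2 hn
  obtain ⟨j, hj⟩ := exists_ne i₀
  obtain ⟨g, hg⟩ := hG.lift (Equiv.swap i₀ j)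
  have h1 := hg i₀
  rw [Equiv.swap_apply_left] at h1
  have h2 : g (y i₀) = y i₀ := g.commutes ⟨y i₀, h⟩
  exact hj (hG.ind.injective (h1.symm.trans h2))

/-- the permutation induced by an automorphism -/
noncomputable def piHom {F : IntermediateField k K} {n : ℕ} {y : Fin n → K} (hG : Gen F y) :
    (K ≃ₐ[F] K) →* Equiv.Perm (Fin n) :=
  MonoidHom.mk' (fun g => (hG.perm g).choose) (by
    intro a b
    ext i
    apply congrArg Fin.val
    apply hG.ind.injective
    rw [← (hG.perm (a * b)).choose_spec i, Equiv.Perm.mul_apply,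
      ← (hG.perm a).choose_spec, ← (hG.perm b).choose_spec]
    rfl)

theorem piHom_spec {F : IntermediateField k K} {n : ℕ} {y : Fin n → K} (hG : Gen F y)
    (g : K ≃ₐ[F] K) (i : Fin n) : g (y i) = y (piHom hG g i) :=
  (hG.perm g).choose_spec i

theorem piHom_eq {F : IntermediateField k K} {n : ℕ} {y : Fin n → K} (hG : Gen F y)
    {g : K ≃ₐ[F] K} {σ : Equiv.Perm (Fin n)} (h : ∀ i, g (y i) = y (σ i)) :
    piHom hG g = σ := by
  ext i
  apply congrArg Fin.val
  apply hG.ind.injective
  rw [← piHom_spec hG, h]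

theorem map_br {F : IntermediateField k K} {r : ℕ} {t : Fin r → K} (ht : ∀ i, t i ∈ F)
    (g : K ≃ₐ[F] K) {z : K} (hz : z ∈ br k t) : g z ∈ br k t := by
  rw [mem_br] at hz ⊢
  obtain ⟨p, hp0, hp⟩ := hz
  refine ⟨p, hp0, ?_⟩
  have hle : adjoin k (Set.range t) ≤ F := by
    rw [adjoin_le_iff]
    rintro _ ⟨i, rfl⟩
    exact ht i
  have h1 : (g : K →+* K).comp (algebraMap (adjoin k (Set.range t)) K) =
      algebraMap (adjoin k (Set.range t)) K := by
    ext w
    exact g.commutes ⟨w, hle w.2⟩
  rw [Polynomial.aeval_def] at hp ⊢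
  have h2 := Polynomial.hom_eval₂ p (algebraMap (adjoin k (Set.range t)) K) (g : K →+* K) z
  rw [hp, map_zero, h1] at h2
  exact h2.symm

/-- the subgroup of automorphisms fixing `[t]` pointwise -/
def fixBr (F : IntermediateField k K) {r : ℕ} (t : Fin r → K) : Subgroup (K ≃ₐ[F] K) where
  carrier := {g | ∀ z ∈ br k t, g z = z}
  mul_mem' := by
    intro a b ha hb z hz
    change a (b z) = z
    rw [hb z hz, ha z hz]
  one_mem' := fun z _ => rfl
  inv_mem' := by
    intro a ha z hz
    change a.symm z = z
    rw [AlgEquiv.symm_apply_eq, ha z hz]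

theorem fixBr_normal {F : IntermediateField k K} {r : ℕ} {t : Fin r → K} (ht : ∀ i, t i ∈ F) :
    (fixBr F t).Normal := by
  constructor
  intro a ha g z hz
  change g (a (g.symm z)) = z
  have h1 : g.symm z ∈ br k t := map_br ht g.symm hz
  rw [ha _ h1, AlgEquiv.apply_symm_apply]

/-- the field of elements fixed by one automorphism -/
def fixOne {F : IntermediateField k K} (g : K ≃ₐ[F] K) : IntermediateField k K where
  carrier := {z | g z = z}
  mul_mem' := by
    intro a b ha hb
    change g (a * b) = a * b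
    rw [map_mul, ha, hb]
  one_mem' := map_one g
  add_mem' := by
    intro a b ha hb
    change g (a + b) = a + b
    rw [map_add, ha, hb]
  zero_mem' := map_zero g
  algebraMap_mem' := by
    intro a
    exact g.commutes (algebraMap k F a)
  inv_mem' := by
    intro a ha
    change g a⁻¹ = a⁻¹
    rw [map_inv₀, ha]

theorem next_stable {F : IntermediateField k K} {r : ℕ} (g : K ≃ₐ[F] K) {z : K}
    (hz : z ∈ next k r F) : g z ∈ next k r F := by
  have h : next k r F ≤ (next k r F).comap ((g.restrictScalars k : K ≃ₐ[k] K) : K →ₐ[k] K) := by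
    refine iSup_le fun t w hw => ?_
    change g w ∈ next k r F
    exact br_le_next _ (fun i => (t i).2) (map_br (fun i => (t i).2) g hw)
  exact h hz

/-- one tuple `t` suffices -/
theorem exists_one_tuple {F : IntermediateField k K} {n : ℕ} {y : Fin n → K} (hG : Gen F y)
    (hn : 5 ≤ n) {r : ℕ} {i₀ : Fin n} (h : y i₀ ∈ next k r F) :
    ∃ t : Fin r → K, (∀ i, t i ∈ F) ∧
      ∀ g : K ≃ₐ[F] K, (∀ z ∈ br k t, g z = z) → ∀ i, g (y i) = y i := by
  classical
  have hall : ∀ i, y i ∈ next k r F := by
    intro i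
    obtain ⟨g, hg⟩ := hG.lift (Equiv.swap i₀ i)
    have h1 := next_stable g h
    rwa [hg, Equiv.swap_apply_left] at h1
  choose s hs using fun i => exists_finset_of_mem_iSup (hall i)
  by_contra hcon
  push Not at hcon
  obtain ⟨g, hg1, hg2⟩ := exists_common hn (piHom hG)
    (fun σ => (hG.lift σ).imp fun g hg => piHom_eq hG hg)
    (Finset.univ.biUnion s) (fun t : Fin r → F => fixBr F (fun i => (t i : K)))
    (fun t _ => fixBr_normal fun i => (t i).2) (fun t _ => by
      obtain ⟨g, hg, i, hi⟩ := hcon (fun i => (t i : K)) (fun i => (t i).2)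
      refine ⟨g, hg, fun h1 => hi ?_⟩
      rw [piHom_spec hG, h1]
      rfl)
  apply hg2
  apply piHom_eq hG
  intro i
  have h1 : (⨆ t ∈ s i, br k (fun j => ((t : Fin r → F) j : K))) ≤ fixOne g := by
    refine iSup₂_le fun t ht z hz => ?_
    exact hg1 t (Finset.mem_biUnion.2 ⟨i, Finset.mem_univ _, ht⟩) z hz
  exact h1 (hs i)

open scoped IntermediateField.algebraAdjoinAdjoin in
/-- transcendence degree of `[t]` -/
theorem card_le_of_mem_br {m r : ℕ} {c : Fin m → K} (hc : AlgebraicIndependent k c)
    {t : Fin r → K} (h : ∀ a, c a ∈ br k t) : m ≤ r := by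
  have h1 : (AlgebraicIndependent.matroid k K).Indep (Set.range c) := by
    rw [AlgebraicIndependent.matroid_indep_iff]
    exact hc.coe_range
  have h2 : Set.range c ⊆ (AlgebraicIndependent.matroid k K).closure (Set.range t) := by
    rw [AlgebraicIndependent.matroid_closure_eq]
    rintro _ ⟨a, rfl⟩
    have h3 := h a
    rw [mem_br] at h3
    exact (IsFractionRing.isAlgebraic_iff (Algebra.adjoin k (Set.range t))
      (adjoin k (Set.range t)) K).2 h3
  have h3 := (AlgebraicIndependent.matroid k K).eRk_mono h2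
  rw [Matroid.eRk_closure_eq, h1.eRk_eq_encard] at h3
  have h4 := h3.trans ((AlgebraicIndependent.matroid k K).eRk_le_encard (Set.range t))
  have h5 : (Set.range c).encard = m := by
    rw [← Set.image_univ, hc.injective.injOn.encard_image, Set.encard_univ]
    simp
  have h6 : (Set.range t).encard ≤ r := by
    rw [← Set.image_univ]
    refine (Set.encard_image_le _ _).trans ?_
    rw [Set.encard_univ]
    simp
  rw [h5] at h4
  exact_mod_cast h4.trans h6

/-- the sign function on permutations -/
def phi {n m : ℕ} (u v : Fin m → Fin n) (a : Fin m) (s : Equiv.Perm (Fin n)) : ℤ :=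
  if ∀ b, (s (u b) = u b ∧ s (v b) = v b) ∨ (s (u b) = v b ∧ s (v b) = u b) then
    (if s (u a) = u a then 1 else -1) else 0

theorem phi_one {n m : ℕ} (u v : Fin m → Fin n) (a : Fin m) : phi u v a 1 = 1 := by
  simp [phi]

theorem phi_swap {n m : ℕ} {u v : Fin m → Fin n} (hu : Function.Injective u)
    (hv : Function.Injective v) (huv : ∀ a b, u a ≠ v b) (a b : Fin m)
    (s : Equiv.Perm (Fin n)) :
    phi u v a (Equiv.swap (u b) (v b) * s) = (if a = b then -1 else 1) * phi u v a s := by
  have key : ∀ c w, Equiv.swap (u b) (v b) w = u c ↔ w = (if c = b then v c else u c) := by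
    intro c w
    rw [Equiv.swap_apply_eq_iff]
    by_cases h : c = b
    · subst h
      simp
    · rw [if_neg h, Equiv.swap_apply_of_ne_of_ne (hu.ne h) (huv c b)]
  have key' : ∀ c w, Equiv.swap (u b) (v b) w = v c ↔ w = (if c = b then u c else v c) := by
    intro c w
    rw [Equiv.swap_apply_eq_iff]
    by_cases h : c = b
    · subst h
      simp
    · rw [if_neg h, Equiv.swap_apply_of_ne_of_ne (huv b c).symm (hv.ne h)]
  have hcond : (∀ c, ((Equiv.swap (u b) (v b) * s) (u c) = u c ∧
      (Equiv.swap (u b) (v b) * s) (v c) = v c) ∨ ((Equiv.swap (u b) (v b) * s) (u c) = v c ∧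
      (Equiv.swap (u b) (v b) * s) (v c) = u c)) ↔
      ∀ c, (s (u c) = u c ∧ s (v c) = v c) ∨ (s (u c) = v c ∧ s (v c) = u c) := by
    refine forall_congr' fun c => ?_
    simp only [Equiv.Perm.mul_apply, key, key']
    by_cases h : c = b
    · simp only [if_pos h]
      tauto
    · simp only [if_neg h]
  unfold phi
  by_cases hC : ∀ c, (s (u c) = u c ∧ s (v c) = v c) ∨ (s (u c) = v c ∧ s (v c) = u c)
  · rw [if_pos (hcond.2 hC), if_pos hC]
    simp only [Equiv.Perm.mul_apply, key]
    by_cases h : a = b
    · simp only [if_pos h]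
      rcases hC a with h1 | h1
      · rw [if_pos h1.1, if_neg, mul_one]
        rw [h1.1]
        exact huv a a
      · rw [if_pos h1.1, if_neg]
        · norm_num
        · rw [h1.1]
          exact (huv a a).symm
    · simp only [if_neg h, one_mul]
  · rw [if_neg (fun h => hC (hcond.1 h)), if_neg hC, mul_zero]

theorem lower [IsAlgClosed K] [CharZero k] {F : IntermediateField k K} {n : ℕ}
    {y : Fin n → K} (hG : Gen F y) (hn : 5 ≤ n) {r : ℕ} {i₀ : Fin n}
    (h : y i₀ ∈ next k r F) : n / 2 ≤ r := by
  obtain ⟨t, ht, hfix⟩ := exists_one_tuple hG hn h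
  have hK : CharZero K := charZero_of_injective_algebraMap (algebraMap k K).injective
  let u : Fin (n / 2) → Fin n := fun a => ⟨2 * (a : ℕ), by omega⟩
  let v : Fin (n / 2) → Fin n := fun a => ⟨2 * (a : ℕ) + 1, by omega⟩
  have hu : Function.Injective u := by
    intro a b hab
    have := congrArg Fin.val hab
    simp only [u] at this
    exact Fin.ext (by omega)
  have hv : Function.Injective v := by
    intro a b hab
    have := congrArg Fin.val hab
    simp only [v] at this
    exact Fin.ext (by omega)
  have huv : ∀ a b, u a ≠ v b := by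
    intro a b hab
    have := congrArg Fin.val hab
    simp only [u, v] at this
    omega
  choose c hc0 hcbr hcy hc using fun a => descent hG t ht hfix (phi u v a)
    (by rw [phi_one]; norm_num)
  choose g hg using fun a => hG.lift (Equiv.swap (u a) (v a))
  have hgc : ∀ a b, g a (c b) = ((if b = a then -1 else 1 : ℤ) : K) * c b := by
    intro a b
    refine hc b (g a) (Equiv.swap (u a) (v a)) _ (hg a) fun τ => ?_
    rw [Equiv.swap_inv, phi_swap hu hv huv]
  -- the new variables
  let z : Fin n → K := fun i =>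
    if (i : ℕ) % 2 = 0 then
      (if h2 : (i : ℕ) + 1 < n then y i - y ⟨(i : ℕ) + 1, h2⟩ else y i)
    else y ⟨(i : ℕ) - 1, by omega⟩ + y i
  have hzu : ∀ a, z (u a) = y (u a) - y (v a) := by
    intro a
    have h1 : ((u a : Fin n) : ℕ) % 2 = 0 := by simp [u]
    have h2 : ((u a : Fin n) : ℕ) + 1 < n := (v a).2
    simp only [z]
    rw [if_pos h1, dif_pos h2]
  have hzv : ∀ a, z (v a) = y (u a) + y (v a) := by
    intro a
    have h1 : ¬ ((v a : Fin n) : ℕ) % 2 = 0 := by simp [v]
    simp only [z]
    rw [if_neg h1]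
    rfl
  have hcase : ∀ i : Fin n, (∃ a, i = u a) ∨ (∃ a, i = v a) ∨
      (z i = y i ∧ ∀ a, i ≠ u a ∧ i ≠ v a) := by
    intro i
    by_cases h1 : (i : ℕ) % 2 = 0
    · by_cases h2 : (i : ℕ) + 1 < n
      · left
        exact ⟨⟨(i : ℕ) / 2, by omega⟩, Fin.ext (by simp only [u]; omega)⟩
      · right; right
        refine ⟨by simp only [z]; rw [if_pos h1, dif_neg h2], fun a => ⟨?_, ?_⟩⟩
        · intro h3
          have h4 := congrArg Fin.val h3
          have h5 := a.2
          simp only [u] at h4
          omega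
        · intro h3
          have h4 := congrArg Fin.val h3
          simp only [v] at h4
          omega
    · right; left
      exact ⟨⟨(i : ℕ) / 2, by omega⟩, Fin.ext (by simp only [v]; omega)⟩
  have hle : adjoin k (Set.range y) ≤ adjoin k (Set.range z) := by
    rw [adjoin_le_iff]
    rintro _ ⟨i, rfl⟩
    have hz : ∀ i, z i ∈ adjoin k (Set.range z) := fun i => subset_adjoin k _ ⟨i, rfl⟩
    have h2 : (2 : K) ≠ 0 := two_ne_zero
    have h2m : (2 : K) ∈ adjoin k (Set.range z) := by
      have := (adjoin k (Set.range z)).natCast_mem 2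
      exact_mod_cast this
    rcases hcase i with ⟨a, rfl⟩ | ⟨a, rfl⟩ | ⟨h1, -⟩
    · have h3 : y (u a) = (z (u a) + z (v a)) / 2 := by
        rw [hzu, hzv, eq_div_iff h2]
        ring
      rw [SetLike.mem_coe, h3]
      exact div_mem (add_mem (hz _) (hz _)) h2m
    · have h3 : y (v a) = (z (v a) - z (u a)) / 2 := by
        rw [hzu, hzv, eq_div_iff h2]
        ring
      rw [SetLike.mem_coe, h3]
      exact div_mem (sub_mem (hz _) (hz _)) h2m
    · rw [SetLike.mem_coe, ← h1]
      exact hz i
  have hzind : AlgebraicIndependent k z :=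
    ind_of_le hG.ind (isAlg_mono hG.le hG.alg) hle
  have hcind : AlgebraicIndependent k c := by
    refine algInd_of_signs z hzind u c hc0 (fun a => hle (hcy a))
      (fun a => (g a).restrictScalars k) ?_ ?_ ?_ ?_
    · intro a
      change g a (z (u a)) = - z (u a)
      rw [hzu, map_sub, hg, hg, Equiv.swap_apply_left, Equiv.swap_apply_right]
      ring
    · intro a i hi
      change g a (z i) = z i
      rcases hcase i with ⟨b, rfl⟩ | ⟨b, rfl⟩ | ⟨h1, h2⟩
      · have hab : b ≠ a := fun hab => hi (by rw [hab])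
        rw [hzu, map_sub, hg, hg, Equiv.swap_apply_of_ne_of_ne (hu.ne hab) (huv b a),
          Equiv.swap_apply_of_ne_of_ne (huv a b).symm (hv.ne hab)]
      · rw [hzv, map_add, hg, hg]
        by_cases hab : b = a
        · subst hab
          rw [Equiv.swap_apply_left, Equiv.swap_apply_right]
          ring
        · rw [Equiv.swap_apply_of_ne_of_ne (hu.ne hab) (huv b a),
            Equiv.swap_apply_of_ne_of_ne (huv a b).symm (hv.ne hab)]
      · rw [h1, hg, Equiv.swap_apply_of_ne_of_ne (h2 a).1 (h2 a).2]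
    · intro a
      change g a (c a) = - c a
      rw [hgc, if_pos rfl]
      push_cast
      ring
    · intro a b hab
      change g a (c b) = c b
      rw [hgc, if_neg hab.symm]
      push_cast
      ring
  exact card_le_of_mem_br hcind hcbr

end Pool.Agent.Helper85.SC
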