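import Pool.Agent.Helper85.SC.GenLem
import Pool.Agent.Helper85.SC.Grp
import Pool.Agent.Helper85.SC.Lower

namespace Pool.Agent.Helper85.SC

open IntermediateField

variable {k : Type*} {K : Type*} [Field k] [Field K] [Algebra k K]

/-- the cross ratio -/
private noncomputable def cro {n : ℕ} (y : Fin n → K) (a b c d : Fin n) : K :=
  ((y a - y b) * (y c - y d)) / ((y a - y d) * (y c - y b))

/-- cross ratios lie in a field generated by `n - 3` elements -/
private theorem cro_mem {n : ℕ} (hn : 5 ≤ n) {y : Fin n → K} (hy : Function.Injective y) :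
    ∃ w : Fin (n - 3) → K, ∀ a b c d, cro y a b c d ∈ adjoin k (Set.range w) := by
  classical
  obtain ⟨o, ho⟩ : ∃ o : Fin n, o = ⟨0, by omega⟩ := ⟨_, rfl⟩
  obtain ⟨e, he⟩ : ∃ e : Fin n, e = ⟨1, by omega⟩ := ⟨_, rfl⟩
  obtain ⟨f, hf⟩ : ∃ f : Fin n, f = ⟨2, by omega⟩ := ⟨_, rfl⟩
  refine ⟨fun j => cro y ⟨j + 3, by omega⟩ o e f, ?_⟩
  set w : Fin (n - 3) → K := fun j => cro y ⟨j + 3, by omega⟩ o e f with hw
  set L := adjoin k (Set.range w) with hL
  have hoe : y o ≠ y e := fun h => by
    have := hy h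
    rw [ho, he, Fin.ext_iff] at this
    simp at this
  have hof : y o ≠ y f := fun h => by
    have := hy h
    rw [ho, hf, Fin.ext_iff] at this
    simp at this
  have hef : y e ≠ y f := fun h => by
    have := hy h
    rw [he, hf, Fin.ext_iff] at this
    simp at this
  have h1 : y e - y o ≠ 0 := sub_ne_zero.2 hoe.symm
  have h2 : y e - y f ≠ 0 := sub_ne_zero.2 hef
  have h3 : y o - y f ≠ 0 := sub_ne_zero.2 hof
  obtain ⟨p, hp⟩ : ∃ p : Fin n → K, p = fun i => if i = f then 1 else cro y i o e f := ⟨_, rfl⟩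
  obtain ⟨q, hq⟩ : ∃ q : Fin n → K, q = fun i => if i = f then 0 else 1 := ⟨_, rfl⟩
  obtain ⟨s, hs⟩ : ∃ s : Fin n → K, s = fun i =>
      if i = f then -((y e - y f) * (y o - y f)) / (y e - y o) else y i - y f := ⟨_, rfl⟩
  obtain ⟨κ, hκ⟩ : ∃ κ : K, κ = (y e - y o) / ((y e - y f) * (y o - y f)) := ⟨_, rfl⟩
  have hpL : ∀ i, p i ∈ L := by
    intro i
    rw [hp]
    by_cases hi : i = f
    · simp only [hi, if_true]
      exact one_mem _
    · simp only [hi, if_false]
      rcases Nat.lt_or_ge i.val 3 with h | h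
      · rcases (by omega : i.val = 0 ∨ i.val = 1 ∨ i.val = 2) with h' | h' | h'
        · have : i = o := by rw [ho]; exact Fin.ext h'
          rw [this, cro, sub_self, zero_mul, zero_div]
          exact zero_mem _
        · have : i = e := by rw [he]; exact Fin.ext h'
          rw [this, cro, mul_comm, div_self (mul_ne_zero h2 h1)]
          exact one_mem _
        · exact absurd (by rw [hf]; exact Fin.ext h') hi
      · refine subset_adjoin k _ ⟨⟨i.val - 3, by omega⟩, ?_⟩
        rw [hw]
        simp only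
        congr 1
        apply Fin.ext
        simp only
        omega
  have hqL : ∀ i, q i ∈ L := by
    intro i
    rw [hq]
    by_cases hi : i = f
    · simp only [hi, if_true]
      exact zero_mem _
    · simp only [hi, if_false]
      exact one_mem _
  have hs0 : ∀ i, s i ≠ 0 := by
    intro i
    rw [hs]
    by_cases hi : i = f
    · simp only [hi, if_true]
      exact div_ne_zero (neg_ne_zero.2 (mul_ne_zero h2 h3)) h1
    · simp only [hi, if_false]
      exact sub_ne_zero.2 fun h => hi (hy h)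
  have hκ0 : κ ≠ 0 := by
    rw [hκ]
    exact div_ne_zero h1 (mul_ne_zero h2 h3)
  have hd : ∀ a b, y a - y b = κ * s a * s b * (p a * q b - p b * q a) := by
    intro a b
    rw [hκ, hs, hp, hq]
    by_cases ha : a = f
    · by_cases hb : b = f
      · simp [ha, hb]
      · have hb' : y b - y f ≠ 0 := sub_ne_zero.2 fun h => hb (hy h)
        simp only [ha, hb, if_true, if_false]
        field_simp
        ring
    · have ha' : y a - y f ≠ 0 := sub_ne_zero.2 fun h => ha (hy h)
      by_cases hb : b = f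
      · simp only [ha, hb, if_true, if_false]
        field_simp
        ring
      · have hb' : y b - y f ≠ 0 := sub_ne_zero.2 fun h => hb (hy h)
        simp only [ha, hb, if_false, cro]
        field_simp
        ring
  intro a b c d
  have h4 : cro y a b c d = ((p a * q b - p b * q a) * (p c * q d - p d * q c)) /
      ((p a * q d - p d * q a) * (p c * q b - p b * q c)) := by
    unfold cro
    rw [hd a b, hd c d, hd a d, hd c b]
    rw [show κ * s a * s b * (p a * q b - p b * q a) * (κ * s c * s d * (p c * q d - p d * q c)) =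
      (κ * κ * s a * s b * s c * s d) * ((p a * q b - p b * q a) * (p c * q d - p d * q c)) by ring,
      show κ * s a * s d * (p a * q d - p d * q a) * (κ * s c * s b * (p c * q b - p b * q c)) =
      (κ * κ * s a * s b * s c * s d) * ((p a * q d - p d * q a) * (p c * q b - p b * q c)) by ring]
    exact mul_div_mul_left _ _ (mul_ne_zero (mul_ne_zero (mul_ne_zero (mul_ne_zero
      (mul_ne_zero hκ0 hκ0) (hs0 a)) (hs0 b)) (hs0 c)) (hs0 d))
  rw [h4]
  have hdet : ∀ a b, p a * q b - p b * q a ∈ L := fun a b =>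
    sub_mem (mul_mem (hpL a) (hqL b)) (mul_mem (hpL b) (hqL a))
  exact div_mem (mul_mem (hdet a b) (hdet c d)) (mul_mem (hdet a d) (hdet c b))

private theorem cro_map {F : IntermediateField k K} {n : ℕ} {y : Fin n → K} (hG : Gen F y)
    (g : K ≃ₐ[F] K) (a b c d : Fin n) :
    g (cro y a b c d) = cro y (piHom hG g a) (piHom hG g b) (piHom hG g c) (piHom hG g d) := by
  unfold cro
  rw [map_div₀, map_mul, map_mul, map_sub, map_sub, map_sub, map_sub, piHom_spec hG g a,
    piHom_spec hG g b, piHom_spec hG g c, piHom_spec hG g d]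

/-- the automorphisms which fix all cross ratios -/
private def fixCro (F : IntermediateField k K) {n : ℕ} (y : Fin n → K) :
    Subgroup (K ≃ₐ[F] K) where
  carrier := {g | ∀ a b c d, g (cro y a b c d) = cro y a b c d}
  mul_mem' := by
    intro g h hg hh a b c d
    change g (h _) = _
    rw [hh, hg]
  one_mem' := fun _ _ _ _ => rfl
  inv_mem' := by
    intro g hg a b c d
    change g.symm _ = _
    rw [AlgEquiv.symm_apply_eq, hg]

private theorem fixCro_normal {F : IntermediateField k K} {n : ℕ} {y : Fin n → K}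
    (hG : Gen F y) : (fixCro F y).Normal := by
  constructor
  intro h hh g a b c d
  change g (h (g.symm _)) = _
  have h1 : g.symm (cro y a b c d) = cro y (piHom hG g.symm a) (piHom hG g.symm b)
    (piHom hG g.symm c) (piHom hG g.symm d) := cro_map hG g.symm a b c d
  rw [h1, hh, ← h1, AlgEquiv.apply_symm_apply]

private theorem fixCro_trivial [CharZero k] {F : IntermediateField k K} {n : ℕ} {y : Fin n → K}
    (hG : Gen F y) (hn : 5 ≤ n) {g : K ≃ₐ[F] K} (hg : g ∈ fixCro F y) : piHom hG g = 1 := by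
  classical
  by_contra hcon
  have hsurj : Function.Surjective (piHom hG) := fun σ => (hG.lift σ).imp fun g hg => piHom_eq hG hg
  have hN : ((fixCro F y).map (piHom hG)).Normal := (fixCro_normal hG).map _ hsurj
  have hne : (fixCro F y).map (piHom hG) ≠ ⊥ := by
    intro h
    apply hcon
    have : piHom hG g ∈ (fixCro F y).map (piHom hG) := Subgroup.mem_map_of_mem _ hg
    rw [h, Subgroup.mem_bot] at this
    exact this
  have hA := alternating_le hn _ hN hne
  obtain ⟨o, ho⟩ : ∃ o : Fin n, o = ⟨0, by omega⟩ := ⟨_, rfl⟩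
  obtain ⟨e, he⟩ : ∃ e : Fin n, e = ⟨1, by omega⟩ := ⟨_, rfl⟩
  obtain ⟨f, hf⟩ : ∃ f : Fin n, f = ⟨2, by omega⟩ := ⟨_, rfl⟩
  obtain ⟨t, ht⟩ : ∃ t : Fin n, t = ⟨3, by omega⟩ := ⟨_, rfl⟩
  have hoe : o ≠ e := by rw [ho, he]; simp [Fin.ext_iff]
  have hof : o ≠ f := by rw [ho, hf]; simp [Fin.ext_iff]
  have hef : e ≠ f := by rw [he, hf]; simp [Fin.ext_iff]
  have hot : o ≠ t := by rw [ho, ht]; simp [Fin.ext_iff]
  have het : e ≠ t := by rw [he, ht]; simp [Fin.ext_iff]
  have hft : f ≠ t := by rw [hf, ht]; simp [Fin.ext_iff]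
  have hc : Equiv.swap o e * Equiv.swap e f ∈ alternatingGroup (Fin n) := by
    rw [Equiv.Perm.mem_alternatingGroup, Equiv.Perm.sign_mul, Equiv.Perm.sign_swap hoe,
      Equiv.Perm.sign_swap hef]
    norm_num
  obtain ⟨h, hh, hhc⟩ := hA hc
  have h1 := hh o e f t
  rw [cro_map hG, hhc] at h1
  have e1 : (Equiv.swap o e * Equiv.swap e f) o = e := by
    rw [Equiv.Perm.mul_apply, Equiv.swap_apply_of_ne_of_ne hoe hof, Equiv.swap_apply_left]
  have e2 : (Equiv.swap o e * Equiv.swap e f) e = f := by
    rw [Equiv.Perm.mul_apply, Equiv.swap_apply_left, Equiv.swap_apply_of_ne_of_ne hof.symm hef.symm]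
  have e3 : (Equiv.swap o e * Equiv.swap e f) f = o := by
    rw [Equiv.Perm.mul_apply, Equiv.swap_apply_right, Equiv.swap_apply_right]
  have e4 : (Equiv.swap o e * Equiv.swap e f) t = t := by
    rw [Equiv.Perm.mul_apply, Equiv.swap_apply_of_ne_of_ne het.symm hft.symm,
      Equiv.swap_apply_of_ne_of_ne hot.symm het.symm]
  rw [e1, e2, e3, e4] at h1
  have hy := hG.ind.injective
  have hne' : ∀ {a b : Fin n}, a ≠ b → y a - y b ≠ 0 := fun hab => sub_ne_zero.2 fun h => hab (hy h)
  unfold cro at h1
  rw [div_eq_div_iff (mul_ne_zero (hne' het) (hne' hof)) (mul_ne_zero (hne' hot) (hne' hef.symm))]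
    at h1
  -- a polynomial relation
  let Q : MvPolynomial (Fin n) k :=
    (MvPolynomial.X e - MvPolynomial.X f) * (MvPolynomial.X o - MvPolynomial.X t) *
      ((MvPolynomial.X o - MvPolynomial.X t) * (MvPolynomial.X f - MvPolynomial.X e)) -
    (MvPolynomial.X o - MvPolynomial.X e) * (MvPolynomial.X f - MvPolynomial.X t) *
      ((MvPolynomial.X e - MvPolynomial.X t) * (MvPolynomial.X o - MvPolynomial.X f))
  have hQ : MvPolynomial.aeval y Q = 0 := by
    simp only [Q, map_sub, map_mul, MvPolynomial.aeval_X]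
    rw [h1, sub_self]
  have hQ0 : Q = 0 := (injective_iff_map_eq_zero _).1 hG.ind Q hQ
  have hev : MvPolynomial.eval (fun i : Fin n => ((i.val : ℕ) : k)) Q = 0 := by rw [hQ0, map_zero]
  simp only [Q, map_sub, map_mul, MvPolynomial.eval_X, ho, he, hf, ht] at hev
  push_cast at hev
  ring_nf at hev
  norm_num at hev

theorem upper [IsAlgClosed K] [CharZero k] {F : IntermediateField k K} {n : ℕ}
    {y : Fin n → K} (hG : Gen F y) (hn : 5 ≤ n) (i₀ : Fin n) : y i₀ ∈ next k (n - 3) F := by
  classical
  have hy := hG.ind.injective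
  obtain ⟨w, hw⟩ := cro_mem (k := k) hn hy
  let S : Finset K := Finset.univ.image fun v : Fin n × Fin n × Fin n × Fin n =>
    cro y v.1 v.2.1 v.2.2.1 v.2.2.2
  have hS : ∀ a b c d, cro y a b c d ∈ S := fun a b c d =>
    Finset.mem_image.2 ⟨(a, b, c, d), Finset.mem_univ _, rfl⟩
  have hSg : ∀ g : K ≃ₐ[F] K, S.image g = S := by
    intro g
    apply Finset.eq_of_subset_of_card_le
    · intro z hz
      obtain ⟨x, hx, rfl⟩ := Finset.mem_image.1 hz
      obtain ⟨v, _, rfl⟩ := Finset.mem_image.1 hx
      rw [cro_map hG]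
      exact hS _ _ _ _
    · rw [Finset.card_image_of_injective _ g.injective]
  let P : Polynomial K := ∏ x ∈ S, (Polynomial.X - Polynomial.C x)
  have hPfix : ∀ (g : K ≃ₐ[F] K) (i : ℕ), g (P.coeff i) = P.coeff i := by
    intro g i
    have h1 : P.map (g : K →+* K) = P := by
      simp only [P]
      rw [Polynomial.map_prod]
      simp only [Polynomial.map_sub, Polynomial.map_X, Polynomial.map_C]
      conv_rhs => rw [← hSg g]
      rw [Finset.prod_image (fun a _ b _ h => g.injective h)]
      rfl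
    have h2 := congrArg (fun p => Polynomial.coeff p i) h1
    simp only [Polynomial.coeff_map] at h2
    exact h2
  have hPF : ∀ i, P.coeff i ∈ F := fun i => mem_base_of_fixed hG.alg fun g => hPfix g i
  have hPL : ∀ i, P.coeff i ∈ adjoin k (Set.range w) := by
    have h1 : P ∈ Polynomial.lifts (algebraMap (adjoin k (Set.range w)) K) := by
      refine prod_mem fun x hx => ?_
      obtain ⟨v, _, rfl⟩ := Finset.mem_image.1 hx
      rw [sub_eq_add_neg, ← Polynomial.C_neg]
      exact add_mem (Polynomial.X_mem_lifts _)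
        (Polynomial.C'_mem_lifts ⟨⟨_, neg_mem (hw _ _ _ _)⟩, rfl⟩)
    intro i
    obtain ⟨z, hz⟩ := (Polynomial.lifts_iff_coeff_lifts _).1 h1 i
    rw [← hz]
    exact z.2
  let C0 : Finset K := (Finset.range (P.natDegree + 1)).image P.coeff
  have hC0 : ∀ z ∈ C0, ∃ i, P.coeff i = z := by
    intro z hz
    obtain ⟨i, _, hi⟩ := Finset.mem_image.1 hz
    exact ⟨i, hi⟩
  obtain ⟨I, hI⟩ := (AlgebraicIndependent.matroid k K).exists_isBasis (C0 : Set K)
    (by simp [AlgebraicIndependent.matroid_e])
  have hIfin : I.Finite := C0.finite_toSet.subset hI.subset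
  have hind := (AlgebraicIndependent.matroid_indep_iff).1 hI.indep
  obtain ⟨m, ⟨em⟩⟩ : ∃ m : ℕ, Nonempty (I ≃ Fin m) := by
    have := hIfin.fintype
    exact ⟨Fintype.card I, ⟨Fintype.equivFin I⟩⟩
  let c : Fin m → K := fun i => ((em.symm i : I) : K)
  have hc : AlgebraicIndependent k c := hind.comp em.symm em.symm.injective
  have hcI : ∀ i, c i ∈ I := fun i => (em.symm i).2
  have hcc : ∀ i, ∃ j, P.coeff j = c i := fun i => hC0 _ (hI.subset (hcI i))
  have hm : m ≤ n - 3 := by
    refine card_le_of_mem_br (t := w) hc fun a => ?_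
    obtain ⟨j, hj⟩ := hcc a
    rw [mem_br, ← hj]
    exact isAlgebraic_algebraMap (⟨P.coeff j, hPL j⟩ : adjoin k (Set.range w))
  let t : Fin (n - 3) → K := fun i => if h : i.val < m then c ⟨i, h⟩ else 0
  have htF : ∀ i, t i ∈ F := by
    intro i
    simp only [t]
    split_ifs with h
    · obtain ⟨j, hj⟩ := hcc ⟨i, h⟩
      rw [← hj]
      exact hPF j
    · exact zero_mem _
  have hIt : I ⊆ Set.range t := by
    intro z hz
    refine ⟨⟨(em ⟨z, hz⟩).val, lt_of_lt_of_le (em ⟨z, hz⟩).2 hm⟩, ?_⟩
    simp [t, c]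
  have hcoef : ∀ i, P.coeff i ∈ br k t := by
    intro i
    rcases Nat.lt_or_ge P.natDegree i with h | h
    · rw [Polynomial.coeff_eq_zero_of_natDegree_lt h]
      exact zero_mem _
    · have h1 : P.coeff i ∈ (C0 : Set K) :=
        Finset.mem_coe.2 (Finset.mem_image.2 ⟨i, Finset.mem_range.2 (by omega), rfl⟩)
      have h2 := hI.subset_closure h1
      rw [AlgebraicIndependent.matroid_closure_eq] at h2
      have h3 : IsAlgebraic (Algebra.adjoin k I) (P.coeff i) := h2
      rw [mem_br]
      obtain ⟨p, hp0, hp⟩ := h3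
      have hle : Algebra.adjoin k I ≤ (adjoin k (Set.range t)).toSubalgebra :=
        Algebra.adjoin_le (hIt.trans (subset_adjoin k _))
      refine ⟨p.map (Subalgebra.inclusion hle).toRingHom, ?_, ?_⟩
      · rwa [Polynomial.map_ne_zero_iff (Subalgebra.inclusion_injective hle)]
      · rw [Polynomial.aeval_def, Polynomial.eval₂_map]
        exact hp
  have hXbr : ∀ a b c d, cro y a b c d ∈ br k t := by
    intro a b c d
    rw [mem_br]
    have h1 : P ∈ Polynomial.lifts
        (algebraMap (algebraicClosure (adjoin k (Set.range t)) K) K) := by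
      rw [Polynomial.lifts_iff_coeff_lifts]
      intro i
      exact ⟨⟨P.coeff i, hcoef i⟩, rfl⟩
    obtain ⟨q, hq⟩ := (Polynomial.mem_lifts P).1 h1
    have hP0 : P ≠ 0 := (Polynomial.monic_prod_of_monic _ _
      fun x _ => Polynomial.monic_X_sub_C x).ne_zero
    have h2 : IsAlgebraic (algebraicClosure (adjoin k (Set.range t)) K) (cro y a b c d) := by
      refine ⟨q, ?_, ?_⟩
      · rintro rfl
        apply hP0
        rw [← hq, Polynomial.map_zero]
      · rw [Polynomial.aeval_def, Polynomial.eval₂_eq_eval_map, hq]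
        simp only [P]
        rw [Polynomial.eval_prod]
        exact Finset.prod_eq_zero (hS a b c d) (by simp)
    exact h2.restrictScalars (adjoin k (Set.range t))
  have hbn : br k t ≤ next k (n - 3) F := br_le_next t htF
  refine mem_of_fixed hG.alg (le_next (by omega) F) fun g hg => ?_
  have hgN : g ∈ fixCro F y := fun a b c d => hg _ (hbn (hXbr a b c d))
  rw [piHom_spec hG g, fixCro_trivial hG hn hgN]
  rfl

end Pool.Agent.Helper85.SC
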