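import Pool.Agent.Helper85.SC.Lower
import Pool.Agent.Helper85.SC.Upper
import Pool.Agent.Helper85.SC.Small
import Pool.Agent.Helper85.SC.Quint

namespace Pool.Agent.Helper85.SC

open IntermediateField

/-- Complete answer to Q1 for `n <= 5` in characteristic `0`: for every `r >= 1` the root `f` of
the general polynomial of degree `n` lies in some `M_r^s` (so the least `r` is `1`), and the
least such `s` is `1` for `n = 1`, is `3` for `n = 5` and `r = 1`, and is `2` in all the other
cases. -/
theorem least_le_five {k K : Type*} [Field k] [IsAlgClosed k] [CharZero k] [Field K] [Algebra k K]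
    {n : ℕ} (hn1 : 1 ≤ n) (hn5 : n ≤ 5) (x : Fin n → K) (hx : AlgebraicIndependent k x)
    [Algebra.IsAlgebraic (adjoin k (Set.range x)) K] [IsAlgClosed K]
    (f : K) (hf : f ^ n + ∑ i : Fin n, x i * f ^ (n - 1 - (i : ℕ)) = 0)
    (r : ℕ) (hr : 1 ≤ r) :
    IsLeast {s | 1 ≤ s ∧ f ∈ M k x r s}
      (if n = 1 then 1 else if n = 5 ∧ r = 1 then 3 else 2) := by
  have h1 : ∀ r, M k x r 1 = adjoin k (Set.range x) := fun r => rfl
  have h2 : ∀ r, M k x r 2 = next k r (adjoin k (Set.range x)) := fun r => rfl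
  have h3 : ∀ r, M k x r 3 = next k r (next k r (adjoin k (Set.range x))) := fun r => rfl
  by_cases hn : n = 1
  · subst hn
    rw [if_pos rfl]
    refine ⟨⟨le_rfl, ?_⟩, fun s hs => hs.1⟩
    rw [h1]
    have h4 : f = - x 0 := by
      have : f ^ 1 + ∑ i : Fin 1, x i * f ^ (1 - 1 - (i : ℕ)) = f + x 0 := by simp
      rw [this] at hf
      exact eq_neg_of_add_eq_zero_left hf
    rw [h4]
    exact neg_mem (subset_adjoin k _ ⟨0, rfl⟩)
  rw [if_neg hn]
  obtain ⟨y, hG, i₀, rfl⟩ := exists_gen hx ‹_› hf
  have least2 : y i₀ ∈ M k x r 2 → IsLeast {s | 1 ≤ s ∧ y i₀ ∈ M k x r s} 2 := by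
    intro h
    refine ⟨⟨by norm_num, h⟩, ?_⟩
    rintro s ⟨hs1, hs⟩
    by_contra hlt
    have : s = 1 := by omega
    subst this
    rw [h1] at hs
    exact not_mem_base hG (by omega) i₀ hs
  by_cases h5 : n = 5
  · subst h5
    by_cases hr1 : r = 1
    · subst hr1
      rw [if_pos ⟨rfl, rfl⟩]
      refine ⟨⟨by norm_num, ?_⟩, ?_⟩
      · rw [h3]
        exact quintic hG i₀
      · rintro s ⟨hs1, hs⟩
        by_contra hlt
        have : s = 1 ∨ s = 2 := by omega
        rcases this with rfl | rfl
        · rw [h1] at hs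
          exact not_mem_base hG (by norm_num) i₀ hs
        · rw [h2] at hs
          have := lower hG (by norm_num) hs
          omega
    · rw [if_neg fun h => hr1 h.2]
      refine least2 ?_
      rw [h2]
      exact next_mono_right (by norm_num) (by omega) _ (upper hG (by norm_num) i₀)
  · rw [if_neg fun h => h5 h.1]
    refine least2 ?_
    rw [h2]
    exact next_mono_right le_rfl hr _ (small hG (by omega) i₀)

end Pool.Agent.Helper85.SC
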