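import Pool.Agent.Helper85.SC.GenLem

namespace Pool.Agent.Helper85.SC

open IntermediateField

variable {k : Type*} {K : Type*} [Field k] [Field K] [Algebra k K]

/-- The relation (multiplied by a constant) which would hold if two of the roots of the principal
quintic were equal. -/
private def prinRel {A : Type*} [CommRing A] (i j : Fin 5) (y : Fin 5 → A) : A :=
  5 * ((5 * y i - ∑ m, y m) + (5 * y j - ∑ m, y m)) ^ 2 * ∑ l, (5 * y l - ∑ m, y m) ^ 2 -
    10 * ((5 * y i - ∑ m, y m) + (5 * y j - ∑ m, y m)) * ∑ l, (5 * y l - ∑ m, y m) ^ 3 +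
    5 * ∑ l, (5 * y l - ∑ m, y m) ^ 4 - (∑ l, (5 * y l - ∑ m, y m) ^ 2) ^ 2

private lemma prinRel_map {A B : Type*} [CommRing A] [CommRing B] (f : A →+* B) (i j : Fin 5)
    (y : Fin 5 → A) : f (prinRel i j y) = prinRel i j (fun l => f (y l)) := by
  unfold prinRel
  simp only [map_sub, map_add, map_mul, map_pow, map_sum, map_ofNat]

private lemma prinRel_val {A : Type*} [CommRing A] {i j : Fin 5} (hij : i ≠ j) :
    prinRel i j (fun l => (if l = i then (1 : A) else 0) - (if l = j then 1 else 0)) = 3750 := by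
  unfold prinRel
  fin_cases i <;> fin_cases j <;> first | exact absurd rfl hij | skip
  all_goals
    simp [Fin.sum_univ_five]
    ring

private lemma prinRel_ne [CharZero k] {y : Fin 5 → K} (hy : AlgebraicIndependent k y)
    {i j : Fin 5} (hij : i ≠ j) : prinRel i j y ≠ 0 := by
  intro h
  have h1 : MvPolynomial.aeval y (prinRel i j (fun l => (MvPolynomial.X l : MvPolynomial _ k)))
      = 0 := by
    have h2 := prinRel_map ((MvPolynomial.aeval y : MvPolynomial (Fin 5) k →ₐ[k] K) :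
      MvPolynomial (Fin 5) k →+* K) i j (fun l => MvPolynomial.X l)
    simp only [RingHom.coe_coe, MvPolynomial.aeval_X] at h2
    rw [h2]
    exact h
  have h3 := (algebraicIndependent_iff.1 hy) _ h1
  have h4 := prinRel_map (MvPolynomial.eval
    (fun l => (if l = i then (1 : k) else 0) - (if l = j then 1 else 0))) i j
    (fun l => MvPolynomial.X l)
  rw [h3, map_zero] at h4
  simp only [MvPolynomial.eval_X] at h4
  rw [prinRel_val hij] at h4
  norm_num at h4

private lemma prinS2_ne [CharZero k] {y : Fin 5 → K} (hy : AlgebraicIndependent k y) :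
    ∑ l, (5 * y l - ∑ m, y m) ^ 2 ≠ 0 := by
  intro h
  have h1 : MvPolynomial.aeval y (∑ l, (5 * (MvPolynomial.X l : MvPolynomial (Fin 5) k) -
      ∑ m, MvPolynomial.X m) ^ 2) = 0 := by
    simp only [map_sub, map_mul, map_pow, map_sum, map_ofNat, MvPolynomial.aeval_X]
    exact h
  have h3 := (algebraicIndependent_iff.1 hy) _ h1
  have h4 := congrArg (MvPolynomial.eval
    (fun l => (if l = 0 then (1 : k) else 0) - (if l = 1 then 1 else 0))) h3
  simp only [map_sub, map_mul, map_pow, map_sum, map_ofNat, MvPolynomial.eval_X, map_zero] at h4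
  simp [Fin.sum_univ_five] at h4

/-- Reduction of the general quintic to a principal quintic (no terms of degree 4 and 3) over a
quadratic extension of `F`. -/
theorem principal [IsAlgClosed K] [CharZero k] {F : IntermediateField k K}
    {y : Fin 5 → K} (hG : Gen F y) :
    ∃ (e : K) (v : Fin 5 → K), e ^ 2 ∈ F ∧ ∑ i, v i = 0 ∧ ∑ i, v i ^ 2 = 0 ∧
      (∀ g : K ≃ₐ[F] K, g e = e → ∀ σ : Equiv.Perm (Fin 5), (∀ i, g (y i) = y (σ i)) →
        ∀ i, g (v i) = v (σ i)) ∧ (∀ i j, v i = v j → i = j) := by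
  have hK0 : CharZero K := charZero_of_injective_algebraMap (algebraMap k K).injective
  have h5 : (5 : K) ≠ 0 := by norm_num
  obtain ⟨s1, hs1⟩ : ∃ s, s = ∑ i, y i := ⟨_, rfl⟩
  obtain ⟨z, hz⟩ : ∃ z : Fin 5 → K, ∀ i, z i = y i - s1 / 5 := ⟨_, fun _ => rfl⟩
  have hs1g : ∀ g : K ≃ₐ[F] K, g s1 = s1 := by
    intro g
    obtain ⟨σ, hσ⟩ := hG.perm g
    rw [hs1, map_sum]
    simp_rw [hσ]
    exact Equiv.sum_comp σ y
  have hzg : ∀ g : K ≃ₐ[F] K, ∀ σ : Equiv.Perm (Fin 5), (∀ i, g (y i) = y (σ i)) →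
      ∀ i, g (z i) = z (σ i) := by
    intro g σ hσ i
    rw [hz, hz, map_sub, map_div₀, hs1g, hσ, map_ofNat]
  have hfix : ∀ m : ℕ, ∑ i, z i ^ m ∈ F := by
    intro m
    refine mem_base_of_fixed hG.alg fun g => ?_
    obtain ⟨σ, hσ⟩ := hG.perm g
    rw [map_sum]
    simp_rw [map_pow, hzg g σ hσ]
    exact Equiv.sum_comp σ (fun i => z i ^ m)
  obtain ⟨s2, hs2⟩ : ∃ s, s = ∑ i, z i ^ 2 := ⟨_, rfl⟩
  obtain ⟨s3, hs3⟩ : ∃ s, s = ∑ i, z i ^ 3 := ⟨_, rfl⟩
  obtain ⟨s4, hs4⟩ : ∃ s, s = ∑ i, z i ^ 4 := ⟨_, rfl⟩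
  have hs2F : s2 ∈ F := by rw [hs2]; exact hfix 2
  have hs3F : s3 ∈ F := by rw [hs3]; exact hfix 3
  have hs4F : s4 ∈ F := by rw [hs4]; exact hfix 4
  have hgF : ∀ (g : K ≃ₐ[F] K) (w : K), w ∈ F → g w = w := fun g w hw => g.commutes ⟨w, hw⟩
  have hz0 : ∑ i, z i = 0 := by
    have : ∑ i, z i = (∑ i, y i) - 5 * (s1 / 5) := by
      simp_rw [hz]
      rw [Finset.sum_sub_distrib]
      simp
    rw [this, ← hs1, mul_div_cancel₀ _ h5, sub_self]
  have h5z : ∀ l, 5 * y l - ∑ m, y m = 5 * z l := by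
    intro l
    rw [hz, ← hs1, mul_sub, mul_div_cancel₀ _ h5]
  have hs20 : s2 ≠ 0 := by
    intro h
    apply prinS2_ne hG.ind
    simp_rw [h5z, mul_pow]
    rw [← Finset.mul_sum, ← hs2, h, mul_zero]
  obtain ⟨e, he⟩ := IsAlgClosed.exists_pow_nat_eq (s3 ^ 2 - s2 * (s4 - s2 ^ 2 / 5))
    (n := 2) (by norm_num)
  obtain ⟨al, hal⟩ : ∃ al, al = (-s3 + e) / s2 := ⟨_, rfl⟩
  have hal' : al * s2 = -s3 + e := by rw [hal, div_mul_cancel₀ _ hs20]
  have hquad : al ^ 2 * s2 + 2 * al * s3 + s4 - s2 ^ 2 / 5 = 0 := by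
    have h1 : s2 * (al ^ 2 * s2 + 2 * al * s3 + s4 - s2 ^ 2 / 5) = 0 := by
      have h2 : s2 * (al ^ 2 * s2 + 2 * al * s3 + s4 - s2 ^ 2 / 5) =
          (al * s2) ^ 2 + 2 * (al * s2) * s3 + s2 * (s4 - s2 ^ 2 / 5) := by ring
      rw [h2, hal']
      linear_combination he
    exact (mul_eq_zero.1 h1).resolve_left hs20
  refine ⟨e, fun i => al * z i + z i ^ 2 - s2 / 5, ?_, ?_, ?_, ?_, ?_⟩
  · rw [he]
    exact sub_mem (pow_mem hs3F 2) (mul_mem hs2F (sub_mem hs4F
      (div_mem (pow_mem hs2F 2) (by exact_mod_cast _root_.natCast_mem F 5))))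
  · rw [Finset.sum_sub_distrib, Finset.sum_add_distrib, ← Finset.mul_sum, hz0, ← hs2]
    simp
    rw [mul_div_cancel₀ _ h5, sub_self]
  · have h1 : ∀ i, (al * z i + z i ^ 2 - s2 / 5) ^ 2 = al ^ 2 * z i ^ 2 + 2 * al * z i ^ 3 +
        z i ^ 4 - 2 * (s2 / 5) * al * z i - 2 * (s2 / 5) * z i ^ 2 + (s2 / 5) ^ 2 := by
      intro i; ring
    simp_rw [h1]
    rw [Finset.sum_add_distrib, Finset.sum_sub_distrib, Finset.sum_sub_distrib,
      Finset.sum_add_distrib, Finset.sum_add_distrib, ← Finset.mul_sum, ← Finset.mul_sum,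
      ← Finset.mul_sum, ← Finset.mul_sum, hz0, ← hs2, ← hs3, ← hs4]
    simp only [Finset.sum_const, Finset.card_univ, Fintype.card_fin, nsmul_eq_mul]
    push_cast
    have h2 : al ^ 2 * s2 + 2 * al * s3 + s4 - 2 * (s2 / 5) * al * 0 - 2 * (s2 / 5) * s2 +
        5 * (s2 / 5) ^ 2 = al ^ 2 * s2 + 2 * al * s3 + s4 - s2 ^ 2 / 5 := by
      field_simp
      ring
    rw [h2, hquad]
  · intro g hge σ hσ i
    have h1 : g al = al := by
      rw [hal, map_div₀, map_add, map_neg, hge, hgF g s3 hs3F, hgF g s2 hs2F]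
    simp only [map_sub, map_add, map_mul, map_pow, map_div₀, map_ofNat, hzg g σ hσ, h1,
      hgF g s2 hs2F]
  · intro i j hij
    by_contra hne
    have h1 : (z i - z j) * (al + z i + z j) = 0 := by
      have : al * z i + z i ^ 2 - s2 / 5 = al * z j + z j ^ 2 - s2 / 5 := hij
      linear_combination this
    have h2 : z i - z j ≠ 0 := by
      rw [hz, hz]
      intro h
      apply hne
      apply hG.ind.injective
      linear_combination h
    have h3 : al = -(z i + z j) := by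
      linear_combination (mul_eq_zero.1 h1).resolve_left h2
    apply prinRel_ne hG.ind hne
    unfold prinRel
    simp_rw [h5z, mul_pow]
    rw [← Finset.mul_sum, ← Finset.mul_sum, ← Finset.mul_sum, ← hs2, ← hs3, ← hs4]
    rw [h3] at hquad
    have h6 : (-(z i + z j)) ^ 2 * s2 + 2 * (-(z i + z j)) * s3 + s4 = s2 ^ 2 / 5 := by
      linear_combination hquad
    have h7 : s2 ^ 2 = 5 * ((-(z i + z j)) ^ 2 * s2 + 2 * (-(z i + z j)) * s3 + s4) := by
      rw [h6, mul_div_cancel₀ _ h5]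
    linear_combination (-625 : K) * h7

end Pool.Agent.Helper85.SC
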